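import Pool.Agent.Work.MP_b928c0_sg_helper69.Arith

/-!
# Integers with `Q n ≤ 9 (log n / log log n)²`
-/

set_option autoImplicit false

open Finset

namespace Pool.SG69

/-- allowed integers -/
def Al (n : ℕ) : Prop := (Q n : ℝ) * Real.log (Real.log n) ^ 2 ≤ 9 * Real.log n ^ 2

lemma log_sq_le {x : ℝ} (hx : 29 ≤ x) : 9 * Real.sqrt x * Real.log x ^ 2 ≤ 5 * x ^ 2 := by
  have hx0 : 0 < x := by linarith
  set y := Real.sqrt (Real.sqrt x) with hy
  have hy2 : y ^ 2 = Real.sqrt x := Real.sq_sqrt (Real.sqrt_nonneg _)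
  have hy4 : y ^ 4 = x := by
    have : y ^ 4 = (y ^ 2) ^ 2 := by ring
    rw [this, hy2, Real.sq_sqrt hx0.le]
  have hy0 : 0 < y := Real.sqrt_pos.2 (Real.sqrt_pos.2 hx0)
  have h1 : Real.log x ≤ 4 * y := by
    rw [← hy4, Real.log_pow]
    have := Real.log_le_sub_one_of_pos hy0
    push_cast
    linarith
  have h0 : 0 ≤ Real.log x := Real.log_nonneg (by linarith)
  have h2 : Real.log x ^ 2 ≤ (4 * y) ^ 2 := pow_le_pow_left₀ h0 h1 2
  rw [← hy2]
  have h3 : 9 * y ^ 2 * Real.log x ^ 2 ≤ 9 * y ^ 2 * (4 * y) ^ 2 :=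
    mul_le_mul_of_nonneg_left h2 (by positivity)
  have h4 : 9 * y ^ 2 * (4 * y) ^ 2 = 144 * x := by rw [← hy4]; ring
  nlinarith

lemma card_sq_le (x : ℝ) (hx : 0 ≤ x) (S : Finset ℕ) (hS : ∀ p ∈ S, 1 ≤ p ∧ (p : ℝ) ^ 2 ≤ x) :
    (S.card : ℝ) ≤ Real.sqrt x := by
  have h1 : S ⊆ Finset.Icc 1 ⌊Real.sqrt x⌋₊ := by
    intro p hp
    rw [Finset.mem_Icc]
    refine ⟨(hS p hp).1, Nat.le_floor ?_⟩
    exact Real.le_sqrt_of_sq_le (hS p hp).2
  have h2 := Finset.card_le_card h1
  rw [Nat.card_Icc, Nat.add_sub_cancel] at h2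
  calc (S.card : ℝ) ≤ ⌊Real.sqrt x⌋₊ := by exact_mod_cast h2
    _ ≤ Real.sqrt x := Nat.floor_le (Real.sqrt_nonneg _)

/-- integers whose small primes have exponent at most `3` are allowed -/
lemma al_of_small {n : ℕ} (hn : n ≠ 0) (hx : 29 ≤ Real.log n)
    (h : ∀ p ∈ n.primeFactors, (p : ℝ) ^ 2 ≤ Real.log n → n.factorization p ≤ 3) : Al n := by
  classical
  unfold Al
  set x := Real.log n with hxd
  have hx0 : 0 < x := by linarith
  have hlx : 0 < Real.log x := Real.log_pos (by linarith)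
  set S := n.primeFactors.filter (fun p : ℕ => (p : ℝ) ^ 2 ≤ x) with hS
  set S' := n.primeFactors.filter (fun p : ℕ => ¬ (p : ℝ) ^ 2 ≤ x) with hS'
  have hQ : (Q n : ℝ) = ∑ p ∈ S, (n.factorization p : ℝ) ^ 2
      + ∑ p ∈ S', (n.factorization p : ℝ) ^ 2 := by
    rw [hS, hS', Finset.sum_filter_add_sum_filter_not]
    unfold Q; push_cast; rfl
  have h1 : ∑ p ∈ S, (n.factorization p : ℝ) ^ 2 ≤ 9 * Real.sqrt x := by
    have h2 : ∀ p ∈ S, (n.factorization p : ℝ) ^ 2 ≤ 9 := by
      intro p hp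
      rw [hS, Finset.mem_filter] at hp
      have h3 : (n.factorization p : ℝ) ≤ 3 := by exact_mod_cast h p hp.1 hp.2
      have h4 : (0 : ℝ) ≤ n.factorization p := Nat.cast_nonneg _
      nlinarith
    have h3 := Finset.sum_le_card_nsmul S _ 9 h2
    rw [nsmul_eq_mul] at h3
    have h4 := card_sq_le x hx0.le S (by
      intro p hp
      rw [hS, Finset.mem_filter] at hp
      exact ⟨(Nat.prime_of_mem_primeFactors hp.1).one_le, hp.2⟩)
    linarith
  have h2 : (∑ p ∈ S', (n.factorization p : ℝ)) * (Real.log x / 2) ≤ x := by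
    calc (∑ p ∈ S', (n.factorization p : ℝ)) * (Real.log x / 2)
        = ∑ p ∈ S', (n.factorization p : ℝ) * (Real.log x / 2) := by rw [Finset.sum_mul]
      _ ≤ ∑ p ∈ S', (n.factorization p : ℝ) * Real.log p := by
          apply Finset.sum_le_sum
          intro p hp
          rw [hS', Finset.mem_filter, not_le] at hp
          apply mul_le_mul_of_nonneg_left _ (Nat.cast_nonneg _)
          have h3 := Real.log_le_log hx0 hp.2.le
          rw [Real.log_pow] at h3
          push_cast at h3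
          linarith
      _ ≤ ∑ p ∈ n.primeFactors, (n.factorization p : ℝ) * Real.log p := by
          apply Finset.sum_le_sum_of_subset_of_nonneg (Finset.filter_subset _ _)
          intro p hp _
          apply mul_nonneg (Nat.cast_nonneg _)
          apply Real.log_nonneg
          exact_mod_cast (Nat.prime_of_mem_primeFactors hp).one_le
      _ = x := (log_eq_sum hn).symm
  have h3 := sum_sq_le_sq_sum S' (fun p => (n.factorization p : ℝ)) (fun _ _ => Nat.cast_nonneg _)
  have h4 : 0 ≤ ∑ p ∈ S', (n.factorization p : ℝ) := Finset.sum_nonneg fun _ _ => Nat.cast_nonneg _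
  have h5 : (∑ p ∈ S', (n.factorization p : ℝ)) ^ 2 * Real.log x ^ 2 ≤ 4 * x ^ 2 := by
    have h6 : (∑ p ∈ S', (n.factorization p : ℝ)) * Real.log x ≤ 2 * x := by linarith
    have h7 : 0 ≤ (∑ p ∈ S', (n.factorization p : ℝ)) * Real.log x := by positivity
    have h8 := pow_le_pow_left₀ h7 h6 2
    calc (∑ p ∈ S', (n.factorization p : ℝ)) ^ 2 * Real.log x ^ 2
        = ((∑ p ∈ S', (n.factorization p : ℝ)) * Real.log x) ^ 2 := by ring
      _ ≤ (2 * x) ^ 2 := h8
      _ = 4 * x ^ 2 := by ring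
  have h6 := log_sq_le hx
  rw [hQ, add_mul]
  have h7 : (∑ p ∈ S, (n.factorization p : ℝ) ^ 2) * Real.log x ^ 2
      ≤ 9 * Real.sqrt x * Real.log x ^ 2 := mul_le_mul_of_nonneg_right h1 (sq_nonneg _)
  have h8 : (∑ p ∈ S', (n.factorization p : ℝ) ^ 2) * Real.log x ^ 2
      ≤ (∑ p ∈ S', (n.factorization p : ℝ)) ^ 2 * Real.log x ^ 2 :=
    mul_le_mul_of_nonneg_right h3 (sq_nonneg _)
  linarith

/-- multiples of `d` in an interval -/
lemma card_mult (N h d : ℕ) (hN : 1 ≤ N) (hd : 0 < d) :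
    ((Ico N (N + h)).filter fun n => d ∣ n).card ≤ h / d + 1 := by
  have h1 : ((Ico N (N + h)).filter fun n => d ∣ n).card
      ≤ (Ioc ((N - 1) / d) ((N - 1 + h) / d)).card := by
    apply Finset.card_le_card_of_injOn (fun n => n / d)
    · intro n hn
      simp only [Finset.coe_filter, Finset.mem_Ico, Set.mem_ofPred_eq] at hn
      obtain ⟨⟨h2, h3⟩, m, rfl⟩ := hn
      simp only [Finset.coe_Ioc, Set.mem_Ioc, Nat.mul_div_cancel_left m hd]
      constructor
      · rw [Nat.div_lt_iff_lt_mul hd, mul_comm]; omega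
      · rw [Nat.le_div_iff_mul_le hd, mul_comm]; omega
    · intro n hn n' hn' hnn
      simp only [Finset.coe_filter, Finset.mem_Ico, Set.mem_ofPred_eq] at hn hn'
      obtain ⟨_, m, rfl⟩ := hn
      obtain ⟨_, m', rfl⟩ := hn'
      simp only [Nat.mul_div_cancel_left _ hd] at hnn
      rw [hnn]
  rw [Nat.card_Ioc] at h1
  have h2 : (N - 1 + h) / d ≤ (N - 1) / d + h / d + 1 := by
    rw [Nat.add_div hd]
    split_ifs <;> omega
  refine h1.trans (Nat.sub_le_iff_le_add.2 ?_)
  linarith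

lemma sum_inv_four (P : ℕ) (hP : 1 ≤ P) :
    ∑ p ∈ Ico 2 (P + 1), (1 : ℝ) / (p : ℝ) ^ 4 ≤ 1 / 4 - 1 / (4 * P) := by
  induction P, hP using Nat.le_induction with
  | base => norm_num
  | succ P hP ih =>
    rw [Finset.sum_Ico_succ_top (by omega)]
    have hP' : (1 : ℝ) ≤ P := by exact_mod_cast hP
    have h1 : (1 : ℝ) / ((P + 1 : ℕ) : ℝ) ^ 4 ≤ 1 / (4 * P) - 1 / (4 * (P + 1)) := by
      have h2 : (1 : ℝ) / (4 * P) - 1 / (4 * (P + 1)) = 1 / (4 * P * (P + 1)) := by
        field_simp; ring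
      rw [h2]
      push_cast
      apply one_div_le_one_div_of_le (by positivity)
      have h3 : (4 : ℝ) * P ≤ (P + 1) ^ 3 := by nlinarith [sq_nonneg ((P : ℝ) - 1), mul_pos (show (0:ℝ) < P by linarith) (show (0:ℝ) < P by linarith)]
      have h4 : ((P : ℝ) + 1) ^ 4 = (P + 1) ^ 3 * (P + 1) := by ring
      rw [h4]
      exact mul_le_mul_of_nonneg_right h3 (by positivity)
    push_cast at ih h1 ⊢
    linarith

/-- few integers of a short interval are divisible by the fourth power of a small prime -/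
lemma card_four (N h P : ℕ) (hN : 1 ≤ N) :
    (((Ico N (N + h)).filter fun n => ∃ p ∈ Ico 2 (P + 1), p ^ 4 ∣ n).card : ℝ) ≤ h / 4 + P := by
  classical
  have h1 : (Ico N (N + h)).filter (fun n => ∃ p ∈ Ico 2 (P + 1), p ^ 4 ∣ n)
      ⊆ (Ico 2 (P + 1)).biUnion fun p => (Ico N (N + h)).filter fun n => p ^ 4 ∣ n := by
    intro n hn
    rw [Finset.mem_filter] at hn
    obtain ⟨hn1, p, hp, hd⟩ := hn
    rw [Finset.mem_biUnion]
    exact ⟨p, hp, Finset.mem_filter.2 ⟨hn1, hd⟩⟩
  have h2 : (((Ico N (N + h)).filter fun n => ∃ p ∈ Ico 2 (P + 1), p ^ 4 ∣ n).card : ℝ)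
      ≤ ∑ p ∈ Ico 2 (P + 1), ((h : ℝ) * (1 / (p : ℝ) ^ 4) + 1) := by
    calc (((Ico N (N + h)).filter fun n => ∃ p ∈ Ico 2 (P + 1), p ^ 4 ∣ n).card : ℝ)
        ≤ ((∑ p ∈ Ico 2 (P + 1), ((Ico N (N + h)).filter fun n => p ^ 4 ∣ n).card : ℕ) : ℝ) := by
          exact_mod_cast (Finset.card_le_card h1).trans Finset.card_biUnion_le
      _ = ∑ p ∈ Ico 2 (P + 1), (((Ico N (N + h)).filter fun n => p ^ 4 ∣ n).card : ℝ) := by
          push_cast; rfl
      _ ≤ ∑ p ∈ Ico 2 (P + 1), ((h : ℝ) * (1 / (p : ℝ) ^ 4) + 1) := by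
          apply Finset.sum_le_sum
          intro p hp
          rw [Finset.mem_Ico] at hp
          have h3 := card_mult N h (p ^ 4) hN (Nat.pow_pos (by omega))
          have h4 : (((Ico N (N + h)).filter fun n => p ^ 4 ∣ n).card : ℝ)
              ≤ ((h / p ^ 4 + 1 : ℕ) : ℝ) := by exact_mod_cast h3
          refine h4.trans ?_
          push_cast
          have h5 : ((h / p ^ 4 : ℕ) : ℝ) ≤ (h : ℝ) / ((p ^ 4 : ℕ) : ℝ) := Nat.cast_div_le
          push_cast at h5
          have h6 : (h : ℝ) * (1 / (p : ℝ) ^ 4) = h / (p : ℝ) ^ 4 := by ring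
          rw [h6]
          linarith
  refine h2.trans ?_
  rw [Finset.sum_add_distrib, ← Finset.mul_sum, Finset.sum_const, nsmul_eq_mul, mul_one,
    Nat.card_Ico]
  rcases Nat.eq_zero_or_pos P with hP | hP
  · subst hP
    simp
    positivity
  · have h3 := sum_inv_four P hP
    have h4 : (0 : ℝ) < P := by exact_mod_cast hP
    have h5 : 0 < 1 / (4 * (P : ℝ)) := by positivity
    have h6 : (h : ℝ) * ∑ p ∈ Ico 2 (P + 1), (1 : ℝ) / (p : ℝ) ^ 4 ≤ h * (1 / 4) :=
      mul_le_mul_of_nonneg_left (by linarith) (Nat.cast_nonneg _)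
    have h7 : ((P + 1 - 2 : ℕ) : ℝ) ≤ P := by
      have : P + 1 - 2 ≤ P := by omega
      exact_mod_cast this
    linarith

open scoped Classical in
/-- the elements of a short interval used in the theorem on three terms -/
noncomputable def W3 (N h : ℕ) : Finset ℕ := (Big N h).filter Al

lemma W3_card (N h P : ℕ) (hN : 2 ≤ N) (hh : 100 ≤ h) (hhN : h ≤ N)
    (h1 : 100 * Real.log h ≤ Real.log N) (hx : 29 ≤ Real.log N)
    (hP : Real.log (2 * N) ≤ (P : ℝ) ^ 2) (hPh : (P : ℝ) ≤ h / 20) :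
    (h : ℝ) / 10 ≤ (W3 N h).card := by
  classical
  have h2 := big_count N h hN hh hhN h1
  have h3 := card_four N h P (by omega)
  have h4 : Big N h ⊆ W3 N h ∪ (Ico N (N + h)).filter (fun n => ∃ p ∈ Ico 2 (P + 1), p ^ 4 ∣ n) := by
    intro n hn
    rw [Finset.mem_union]
    by_cases hAl : Al n
    · left
      unfold W3
      exact Finset.mem_filter.2 ⟨hn, hAl⟩
    · right
      have hn1 := (Finset.mem_filter.1 hn).1
      rw [Finset.mem_filter]
      refine ⟨hn1, ?_⟩
      rw [Finset.mem_Ico] at hn1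
      have hNn : (N : ℝ) ≤ n := by exact_mod_cast hn1.1
      have hN0 : (0 : ℝ) < N := by
        have : 0 < N := by omega
        exact_mod_cast this
      have hlog : Real.log N ≤ Real.log n := Real.log_le_log hN0 hNn
      have hn2N : (n : ℝ) ≤ 2 * N := by
        have : n ≤ 2 * N := by omega
        exact_mod_cast this
      have hlog2 : Real.log n ≤ Real.log (2 * N) := Real.log_le_log (by linarith) hn2N
      by_contra hcon
      push Not at hcon
      apply hAl
      apply al_of_small (by omega) (by linarith)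
      intro p hp hpx
      by_contra h4'
      push Not at h4'
      have hpp := Nat.prime_of_mem_primeFactors hp
      apply hcon p
      · rw [Finset.mem_Ico]
        refine ⟨hpp.two_le, ?_⟩
        have h5 : (p : ℝ) ^ 2 ≤ (P : ℝ) ^ 2 := by linarith
        have h6 : (p : ℝ) ≤ P := le_of_sq_le_sq h5 (Nat.cast_nonneg _)
        have h7 : p ≤ P := by exact_mod_cast h6
        omega
      · exact (pow_dvd_pow p h4').trans (Nat.ordProj_dvd n p)
  have h5 := (Finset.card_le_card h4).trans (Finset.card_union_le _ _)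
  have h6 : ((Big N h).card : ℝ) ≤ ((W3 N h).card : ℝ)
      + ((Ico N (N + h)).filter (fun n => ∃ p ∈ Ico 2 (P + 1), p ^ 4 ∣ n)).card := by
    exact_mod_cast h5
  have hh' : (100 : ℝ) ≤ h := by exact_mod_cast hh
  linarith

end Pool.SG69
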