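import Mathlib

/-!
# Counting integers with a large prime factor in short intervals
-/

set_option autoImplicit false

open Finset

namespace Pool.SG69

/-- the primes below `h` -/
def prs (h : ℕ) : Finset ℕ := (range h).filter Nat.Prime

lemma card_prs_le (h : ℕ) : (prs h).card ≤ h / 2 + 1 := by
  have h1 : prs h ⊆ insert 2 ((range h).filter (fun n => n % 2 = 1)) := by
    intro p hp
    rw [prs, Finset.mem_filter] at hp
    rw [Finset.mem_insert, Finset.mem_filter]
    rcases hp.2.eq_two_or_odd with h | h
    · left; exact h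
    · right; exact ⟨hp.1, h⟩
  have h2 : ∀ h : ℕ, ((range h).filter (fun n => n % 2 = 1)).card = h / 2 := by
    intro h
    induction h with
    | zero => rfl
    | succ h ih =>
      rw [Finset.range_add_one, Finset.filter_insert]
      split_ifs with hc
      · rw [Finset.card_insert_of_notMem (by simp), ih]; omega
      · rw [ih]; omega
  calc _ ≤ (insert 2 ((range h).filter (fun n => n % 2 = 1))).card := Finset.card_le_card h1
    _ ≤ ((range h).filter (fun n => n % 2 = 1)).card + 1 := Finset.card_insert_le _ _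
    _ = h / 2 + 1 := by rw [h2]

/-- the part of `m` composed of primes below `h` -/
def sm (h m : ℕ) : ℕ := ∏ p ∈ prs h, p ^ m.factorization p

lemma prime_of_prs {h p : ℕ} (hp : p ∈ prs h) : p.Prime := (Finset.mem_filter.1 hp).2

lemma sm_pos (h m : ℕ) : 1 ≤ sm h m := by
  apply Nat.one_le_iff_ne_zero.2
  apply Finset.prod_ne_zero_iff.2
  intro p hp
  exact pow_ne_zero _ (prime_of_prs hp).ne_zero

lemma sm_mul (h : ℕ) {a b : ℕ} (ha : a ≠ 0) (hb : b ≠ 0) : sm h (a * b) = sm h a * sm h b := by
  unfold sm
  rw [← Finset.prod_mul_distrib]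
  apply Finset.prod_congr rfl
  intro p _
  rw [Nat.factorization_mul ha hb, Finsupp.add_apply, pow_add]

lemma sm_prod (h : ℕ) {ι : Type} (s : Finset ι) (f : ι → ℕ) (hf : ∀ i ∈ s, f i ≠ 0) :
    sm h (∏ i ∈ s, f i) = ∏ i ∈ s, sm h (f i) := by
  classical
  induction s using Finset.induction_on with
  | empty => simp [sm]
  | insert i s hi ih =>
    rw [Finset.prod_insert hi, Finset.prod_insert hi, sm_mul h (hf i (mem_insert_self i s)),
      ih fun j hj => hf j (mem_insert_of_mem hj)]
    exact Finset.prod_ne_zero_iff.2 fun j hj => hf j (mem_insert_of_mem hj)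

lemma sm_eq {h m : ℕ} (hm : m ≠ 0) (hs : ∀ p ∈ m.primeFactors, p < h) : sm h m = m := by
  have h1 := Nat.prod_factorization_pow_eq_self hm
  rw [Finsupp.prod, Nat.support_factorization] at h1
  conv_rhs => rw [← h1]
  unfold sm
  symm
  apply Finset.prod_subset
  · intro p hp
    rw [prs, Finset.mem_filter, Finset.mem_range]
    exact ⟨hs p hp, Nat.prime_of_mem_primeFactors hp⟩
  · intro p _ hp
    have : m.factorization p = 0 := by
      rw [← Nat.support_factorization] at hp
      exact Finsupp.notMem_support_iff.1 hp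
    rw [this, pow_zero]

lemma sm_le {h m : ℕ} (hm : m ≠ 0) : sm h m ≤ m := by
  have h1 := Nat.prod_factorization_pow_eq_self hm
  rw [Finsupp.prod, Nat.support_factorization] at h1
  conv_rhs => rw [← h1]
  unfold sm
  calc ∏ p ∈ prs h, p ^ m.factorization p
      = ∏ p ∈ (prs h).filter (fun p => p ∈ m.primeFactors), p ^ m.factorization p := by
        symm
        apply Finset.prod_subset (Finset.filter_subset _ _)
        intro p hp hp'
        have : m.factorization p = 0 := by
          by_contra hcon
          apply hp'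
          rw [Finset.mem_filter]
          exact ⟨hp, by rw [← Nat.support_factorization]; exact Finsupp.mem_support_iff.2 hcon⟩
        rw [this, pow_zero]
    _ ≤ ∏ p ∈ m.primeFactors, p ^ m.factorization p := by
        apply Finset.prod_le_prod_of_subset_of_one_le'
        · intro p hp
          exact (Finset.mem_filter.1 hp).2
        · intro p hp _
          exact Nat.one_le_pow _ _ (Nat.prime_of_mem_primeFactors hp).pos

/-- integers in `[N, N + h)` all of whose prime factors are smaller than `h` -/
def Smo (N h : ℕ) : Finset ℕ := (Ico N (N + h)).filter fun n => ∀ p ∈ n.primeFactors, p < h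

lemma smooth_count (N h : ℕ) (hN : 1 ≤ N) :
    N ^ (Smo N h).card ≤ h.factorial * (N + h) ^ (prs h).card := by
  have h0 : ∀ n ∈ Ico N (N + h), n ≠ 0 := by
    intro n hn
    rw [Finset.mem_Ico] at hn
    omega
  have h1 : ∏ n ∈ Ico N (N + h), n = h.factorial * (N + h - 1).choose h := by
    rw [Finset.prod_Ico_eq_prod_range, Nat.add_sub_cancel_left,
      ← Nat.ascFactorial_eq_prod_range, Nat.ascFactorial_eq_factorial_mul_choose']
  calc N ^ (Smo N h).card = ∏ _n ∈ Smo N h, N := by rw [Finset.prod_const]
    _ ≤ ∏ n ∈ Smo N h, n := by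
        apply Finset.prod_le_prod'
        intro n hn
        exact (Finset.mem_Ico.1 (Finset.mem_filter.1 hn).1).1
    _ = ∏ n ∈ Smo N h, sm h n := by
        apply Finset.prod_congr rfl
        intro n hn
        rw [Smo, Finset.mem_filter] at hn
        exact (sm_eq (h0 n hn.1) hn.2).symm
    _ ≤ ∏ n ∈ Ico N (N + h), sm h n := by
        apply Finset.prod_le_prod_of_subset_of_one_le' (Finset.filter_subset _ _)
        intro n _ _
        exact sm_pos h n
    _ = sm h (∏ n ∈ Ico N (N + h), n) := (sm_prod h _ _ h0).symm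
    _ = sm h h.factorial * sm h ((N + h - 1).choose h) := by
        rw [h1, sm_mul h (Nat.factorial_ne_zero h)]
        intro hcon
        rw [Nat.choose_eq_zero_iff] at hcon
        omega
    _ ≤ h.factorial * (N + h) ^ (prs h).card := by
        apply Nat.mul_le_mul (sm_le (Nat.factorial_ne_zero h))
        unfold sm
        rw [← Finset.prod_const]
        apply Finset.prod_le_prod'
        intro p _
        rcases Nat.eq_zero_or_pos (N + h - 1) with hz | hz
        · have : (N + h - 1).choose h = 1 := by
            have : h = 0 := by omega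
            subst this; simp
          rw [this]; simp; omega
        · exact (Nat.pow_factorization_choose_le hz).trans (by omega)

/-- real form: at most `3 h / 5` elements are smooth -/
lemma smooth_count' (N h : ℕ) (hN : 2 ≤ N) (hh : 100 ≤ h) (hhN : h ≤ N)
    (h1 : 100 * Real.log h ≤ Real.log N) : ((Smo N h).card : ℝ) ≤ 3 / 5 * h := by
  have h2 := smooth_count N h (by omega)
  have hNr : (2 : ℝ) ≤ N := by exact_mod_cast hN
  have hhr : (100 : ℝ) ≤ h := by exact_mod_cast hh
  have hlN : 0 < Real.log N := Real.log_pos (by linarith)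
  have h3 : (N : ℝ) ^ (Smo N h).card ≤ (h : ℝ) ^ h * (2 * N : ℝ) ^ (prs h).card := by
    have h4 : N ^ (Smo N h).card ≤ h ^ h * (2 * N) ^ (prs h).card := by
      refine h2.trans (Nat.mul_le_mul (Nat.factorial_le_pow h) ?_)
      apply Nat.pow_le_pow_left
      omega
    exact_mod_cast h4
  have h4 := Real.log_le_log (by positivity) h3
  rw [Real.log_pow, Real.log_mul (by positivity) (by positivity), Real.log_pow, Real.log_pow,
    Real.log_mul (by norm_num) (by positivity)] at h4
  have h5 : ((prs h).card : ℝ) ≤ h / 2 + 1 := by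
    have := card_prs_le h
    have h6 : ((prs h).card : ℝ) ≤ ((h / 2 + 1 : ℕ) : ℝ) := by exact_mod_cast this
    push_cast at h6
    have h7 : ((h / 2 : ℕ) : ℝ) ≤ (h : ℝ) / 2 := Nat.cast_div_le
    linarith
  have hl2 : Real.log 2 ≤ Real.log N / 100 := by
    have : Real.log 2 ≤ Real.log h := Real.log_le_log (by norm_num) (by linarith)
    linarith
  have hl2' : 0 < Real.log 2 := Real.log_pos (by norm_num)
  have h6 : ((prs h).card : ℝ) * (Real.log 2 + Real.log N) ≤ (h / 2 + 1) * (101 / 100 * Real.log N) := by
    apply mul_le_mul h5 (by linarith) (by positivity) (by positivity)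
  have h7 : (h : ℝ) * Real.log h ≤ h * (Real.log N / 100) :=
    mul_le_mul_of_nonneg_left (by linarith) (by positivity)
  have h8 : ((Smo N h).card : ℝ) * Real.log N ≤ 3 / 5 * h * Real.log N := by
    nlinarith
  exact le_of_mul_le_mul_right h8 hlN

/-- integers in `[N, N + h)` with a prime factor at least `h` -/
def Big (N h : ℕ) : Finset ℕ := (Ico N (N + h)).filter fun n => ∃ p ∈ n.primeFactors, h ≤ p

lemma big_count (N h : ℕ) (hN : 2 ≤ N) (hh : 100 ≤ h) (hhN : h ≤ N)
    (h1 : 100 * Real.log h ≤ Real.log N) : 2 / 5 * (h : ℝ) ≤ ((Big N h).card : ℝ) := by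
  have h2 := smooth_count' N h hN hh hhN h1
  have h3 := Finset.card_filter_add_card_filter_not (s := Ico N (N + h))
    (fun n => ∀ p ∈ n.primeFactors, p < h)
  rw [Nat.card_Ico, Nat.add_sub_cancel_left] at h3
  have h4 : (Ico N (N + h)).filter (fun n => ¬ ∀ p ∈ n.primeFactors, p < h) = Big N h := by
    unfold Big
    apply Finset.filter_congr
    intro n _
    push Not
    rfl
  rw [h4] at h3
  have h5 : ((Smo N h).card : ℝ) + (Big N h).card = h := by exact_mod_cast h3
  linarith

/-- private primes -/
lemma exists_private (N h : ℕ) (W : Finset ℕ) (hW : W ⊆ Big N h) :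
    ∃ q : ℕ → ℕ, (∀ n ∈ W, q n ∈ n.primeFactors) ∧ ∀ n ∈ W, ∀ n' ∈ W, q n ∣ n' → n' = n := by
  have h1 : ∀ n ∈ W, ∃ p ∈ n.primeFactors, h ≤ p := fun n hn =>
    (Finset.mem_filter.1 (hW hn)).2
  choose! q hq1 hq2 using h1
  refine ⟨q, hq1, ?_⟩
  intro n hn n' hn' hd
  have h2 := Finset.mem_Ico.1 (Finset.mem_filter.1 (hW hn)).1
  have h3 := Finset.mem_Ico.1 (Finset.mem_filter.1 (hW hn')).1
  have h4 := Nat.dvd_of_mem_primeFactors (hq1 n hn)
  have h5 := hq2 n hn
  by_contra hne
  rcases lt_or_gt_of_ne hne with hlt | hlt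
  · have h6 := Nat.dvd_sub h4 hd
    have h7 := Nat.le_of_dvd (by omega) h6
    omega
  · have h6 := Nat.dvd_sub hd h4
    have h7 := Nat.le_of_dvd (by omega) h6
    omega

end Pool.SG69
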