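import Pool.Agent.Work.MP_b928c0_sg_helper69.Engine
import Pool.Agent.Work.MP_b928c0_sg_helper69.Count

/-!
# Exponents of geometric progressions, the quadratic form `Q`
-/

set_option autoImplicit false

open Finset

namespace Pool.SG69

/-- sum of the squares of the exponents -/
def Q (n : ℕ) : ℕ := ∑ p ∈ n.primeFactors, n.factorization p ^ 2

lemma Q_eq_of_subset {n : ℕ} {S : Finset ℕ} (h : n.primeFactors ⊆ S) :
    Q n = ∑ p ∈ S, n.factorization p ^ 2 := by
  unfold Q
  apply Finset.sum_subset h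
  intro p _ hp
  rw [← Nat.support_factorization] at hp
  rw [Finsupp.notMem_support_iff.1 hp]
  rfl

/-- three terms of a geometric progression -/
structure GP3 (a b c : ℕ) : Prop where
  ha : 0 < a
  lt : a < b
  lt' : b < c
  eq : a * c = b * b

namespace GP3

variable {a b c : ℕ}

lemma hb (h : GP3 a b c) : 0 < b := h.ha.trans h.lt

lemma hc (h : GP3 a b c) : 0 < c := h.hb.trans h.lt'

lemma fac (h : GP3 a b c) (p : ℕ) :
    a.factorization p + c.factorization p = 2 * b.factorization p := by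
  have h1 := congrArg Nat.factorization h.eq
  rw [Nat.factorization_mul h.ha.ne' h.hc.ne', Nat.factorization_mul h.hb.ne' h.hb.ne'] at h1
  have h2 := DFunLike.congr_fun h1 p
  simp only [Finsupp.add_apply] at h2
  omega

lemma sub_a (h : GP3 a b c) : a.primeFactors ⊆ b.primeFactors := by
  intro p hp
  have hpp := Nat.prime_of_mem_primeFactors hp
  have h1 : p ∣ b * b := by
    rw [← h.eq]; exact (Nat.dvd_of_mem_primeFactors hp).mul_right c
  exact Nat.mem_primeFactors.2 ⟨hpp, (hpp.dvd_mul.1 h1).elim id id, h.hb.ne'⟩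

lemma sub_c (h : GP3 a b c) : c.primeFactors ⊆ b.primeFactors := by
  intro p hp
  have hpp := Nat.prime_of_mem_primeFactors hp
  have h1 : p ∣ b * b := by
    rw [← h.eq]; exact (Nat.dvd_of_mem_primeFactors hp).mul_left a
  exact Nat.mem_primeFactors.2 ⟨hpp, (hpp.dvd_mul.1 h1).elim id id, h.hb.ne'⟩

lemma F_eq (h : GP3 a b c) (θ : ℕ → 𝕋) : F θ a - 2 • F θ b + F θ c = 0 := by
  have h1 := congrArg (F θ) h.eq
  rw [F_mul θ h.ha.ne' h.hc.ne', F_mul θ h.hb.ne' h.hb.ne'] at h1
  have h2 : F θ a - 2 • F θ b + F θ c = (F θ a + F θ c) - (F θ b + F θ b) := by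
    rw [two_nsmul]; abel
  rw [h2, h1, sub_self]

/-- the difference vector is not zero -/
lemma exists_ne (h : GP3 a b c) : ∃ p ∈ b.primeFactors, a.factorization p ≠ b.factorization p := by
  by_contra hcon
  push Not at hcon
  have h1 : a = b := by
    apply Nat.eq_of_factorization_eq h.ha.ne' h.hb.ne'
    intro p
    by_cases hp : p ∈ b.primeFactors
    · exact hcon p hp
    · have h2 : p ∉ a.primeFactors := fun h3 => hp (h.sub_a h3)
      rw [← Nat.support_factorization] at hp h2
      rw [Finsupp.notMem_support_iff.1 hp, Finsupp.notMem_support_iff.1 h2]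
  have := h.lt
  omega

lemma sum_sq_ge (h : GP3 a b c) :
    (1 : ℝ) ≤ ∑ p ∈ b.primeFactors, ((b.factorization p : ℝ) - a.factorization p) ^ 2 := by
  obtain ⟨p, hp, hne⟩ := h.exists_ne
  have h1 : ((b.factorization p : ℝ) - a.factorization p) ^ 2 ≤
      ∑ p ∈ b.primeFactors, ((b.factorization p : ℝ) - a.factorization p) ^ 2 :=
    Finset.single_le_sum (f := fun p => ((b.factorization p : ℝ) - a.factorization p) ^ 2)
      (fun _ _ => sq_nonneg _) hp
  refine le_trans ?_ h1
  have h2 : (1 : ℤ) ≤ ((b.factorization p : ℤ) - a.factorization p) ^ 2 := by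
    have h3 : ((b.factorization p : ℤ) - a.factorization p) ≠ 0 := by omega
    have h4 : 0 < ((b.factorization p : ℤ) - a.factorization p) ^ 2 := by positivity
    omega
  exact_mod_cast h2

lemma log_eq (h : GP3 a b c) : 2 * Real.log b = Real.log a + Real.log c := by
  have h1 : (a : ℝ) * c = b * b := by exact_mod_cast h.eq
  have ha : (a : ℝ) ≠ 0 := by exact_mod_cast h.ha.ne'
  have hb : (b : ℝ) ≠ 0 := by exact_mod_cast h.hb.ne'
  have hc : (c : ℝ) ≠ 0 := by exact_mod_cast h.hc.ne'
  rw [← Real.log_mul ha hc, h1, Real.log_mul hb hb]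
  ring

end GP3

lemma Q_pos {n : ℕ} (hn : 2 ≤ n) : 1 ≤ Q n := by
  have h1 : n.minFac ∈ n.primeFactors :=
    Nat.mem_primeFactors.2 ⟨Nat.minFac_prime (by omega), Nat.minFac_dvd n, by omega⟩
  have h2 : n.factorization n.minFac ^ 2 ≤ Q n :=
    Finset.single_le_sum (f := fun p => n.factorization p ^ 2) (fun _ _ => Nat.zero_le _) h1
  have h3 : n.factorization n.minFac ≠ 0 := by
    rw [← Nat.support_factorization] at h1
    exact Finsupp.mem_support_iff.1 h1
  have h4 : 1 ≤ n.factorization n.minFac ^ 2 := Nat.one_le_pow _ _ (Nat.pos_of_ne_zero h3)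
  omega

lemma log_eq_sum {n : ℕ} (hn : n ≠ 0) :
    Real.log n = ∑ p ∈ n.primeFactors, (n.factorization p : ℝ) * Real.log p := by
  have h1 := Nat.prod_factorization_pow_eq_self hn
  rw [Finsupp.prod, Nat.support_factorization] at h1
  have h2 : (n : ℝ) = ∏ p ∈ n.primeFactors, (p : ℝ) ^ n.factorization p := by
    have : ((∏ p ∈ n.primeFactors, p ^ n.factorization p : ℕ) : ℝ) = n := by rw [h1]
    rw [← this]; push_cast; rfl
  conv_lhs => rw [h2]
  rw [Real.log_prod]
  · apply Finset.sum_congr rfl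
    intro p _
    rw [Real.log_pow]
  · intro p hp
    have := (Nat.prime_of_mem_primeFactors hp).pos
    positivity

lemma sum_exp_le {n : ℕ} (hn : n ≠ 0) :
    (∑ p ∈ n.primeFactors, (n.factorization p : ℝ)) * Real.log 2 ≤ Real.log n := by
  rw [log_eq_sum hn, Finset.sum_mul]
  apply Finset.sum_le_sum
  intro p hp
  have hp2 : (2 : ℝ) ≤ p := by exact_mod_cast (Nat.prime_of_mem_primeFactors hp).two_le
  exact mul_le_mul_of_nonneg_left (Real.log_le_log (by norm_num) hp2) (Nat.cast_nonneg _)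

lemma sum_sq_le_sq_sum {ι : Type} (S : Finset ι) (f : ι → ℝ) (hf : ∀ i ∈ S, 0 ≤ f i) :
    ∑ i ∈ S, f i ^ 2 ≤ (∑ i ∈ S, f i) ^ 2 := by
  rw [sq, Finset.sum_mul]
  apply Finset.sum_le_sum
  intro i hi
  rw [sq]
  exact mul_le_mul_of_nonneg_left (Finset.single_le_sum hf hi) (hf i hi)

lemma Q_le {n : ℕ} (hn : n ≠ 0) : (Q n : ℝ) * Real.log 2 ^ 2 ≤ Real.log n ^ 2 := by
  have h1 := sum_exp_le hn
  have h2 := sum_sq_le_sq_sum n.primeFactors (fun p => (n.factorization p : ℝ))
    (fun _ _ => Nat.cast_nonneg _)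
  have h3 : (Q n : ℝ) = ∑ p ∈ n.primeFactors, (n.factorization p : ℝ) ^ 2 := by
    unfold Q; push_cast; rfl
  rw [h3]
  have hl : 0 < Real.log 2 := Real.log_pos (by norm_num)
  have h4 : 0 ≤ ∑ p ∈ n.primeFactors, (n.factorization p : ℝ) :=
    Finset.sum_nonneg fun _ _ => Nat.cast_nonneg _
  calc (∑ p ∈ n.primeFactors, (n.factorization p : ℝ) ^ 2) * Real.log 2 ^ 2
      ≤ (∑ p ∈ n.primeFactors, (n.factorization p : ℝ)) ^ 2 * Real.log 2 ^ 2 :=
        mul_le_mul_of_nonneg_right h2 (sq_nonneg _)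
    _ = ((∑ p ∈ n.primeFactors, (n.factorization p : ℝ)) * Real.log 2) ^ 2 := by ring
    _ ≤ Real.log n ^ 2 := pow_le_pow_left₀ (by positivity) h1 2

/-- from real geometric progressions to integers -/
lemma gp3_of_real {a b c : ℕ} (ha : 0 < a) (hb : 0 < b) (hc : 0 < c) (x r : ℝ)
    (hr : r ≠ 1) (h0 : (a : ℝ) = x) (h1 : (b : ℝ) = x * r) (h2 : (c : ℝ) = x * r ^ 2) :
    GP3 a b c ∨ GP3 c b a := by
  have hx : 0 < x := by rw [← h0]; exact_mod_cast ha
  have hb' : (0 : ℝ) < b := by exact_mod_cast hb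
  have hr0 : 0 < r := by
    rw [h1] at hb'
    exact (mul_pos_iff_of_pos_left hx).1 hb'
  have h3 : (a : ℝ) * c = b * b := by rw [h0, h1, h2]; ring
  have h4 : a * c = b * b := by exact_mod_cast h3
  rcases lt_or_gt_of_ne hr with h | h
  · right
    refine ⟨hc, ?_, ?_, by rw [mul_comm]; exact h4⟩
    · have : (c : ℝ) < b := by
        rw [h1, h2]
        have : x * r ^ 2 = x * r * r := by ring
        rw [this]
        have h5 : 0 < x * r := by positivity
        nlinarith
      exact_mod_cast this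
    · have : (b : ℝ) < a := by rw [h0, h1]; nlinarith
      exact_mod_cast this
  · left
    refine ⟨ha, ?_, ?_, h4⟩
    · have : (a : ℝ) < b := by rw [h0, h1]; nlinarith
      exact_mod_cast this
    · have : (b : ℝ) < c := by
        rw [h1, h2]
        have : x * r ^ 2 = x * r * r := by ring
        rw [this]
        have h5 : 0 < x * r := by positivity
        nlinarith
      exact_mod_cast this

end Pool.SG69
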