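import Pool.Agent.Work.MP_b928c0_sg_helper69.Rankin

/-!
# Target sets on the circle: a prefix code with Rankin digits
-/

set_option autoImplicit false

open Finset MeasureTheory

namespace Pool.SG69

/-- digit sets and radices -/
structure Dig where
  S : ℕ → Finset ℕ
  N : ℕ → ℕ
  small : ∀ b, ∀ s ∈ S b, 32 * (s + 1) ≤ N b
  pos : ∀ b, 32 ≤ N b

namespace Dig

variable (X : Dig)

/-- numbers in `[0, 1)` whose first `κ` digits (from place `b`) are admissible, followed by an end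
marker -/
def TT : ℕ → ℕ → Set ℝ
  | 0, _ => Set.Icc (1 / 4) (9 / 32)
  | κ + 1, b => ⋃ s ∈ X.S b, {g : ℝ | (X.N b : ℝ) * g - s ∈ TT κ (b + 1)}

lemma mem_succ {κ b : ℕ} {g : ℝ} : g ∈ X.TT (κ + 1) b ↔
    ∃ s ∈ X.S b, (X.N b : ℝ) * g - s ∈ X.TT κ (b + 1) := by
  have h : X.TT (κ + 1) b = ⋃ s ∈ X.S b, {g : ℝ | (X.N b : ℝ) * g - s ∈ X.TT κ (b + 1)} := rfl
  rw [h]
  simp only [Set.mem_iUnion, exists_prop]
  exact Iff.rfl

lemma Npos (b : ℕ) : (32 : ℝ) ≤ X.N b := by exact_mod_cast X.pos b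

lemma bound_aux {κ b : ℕ} (ih : ∀ g ∈ X.TT κ (b + 1), 0 ≤ g ∧ g ≤ 9 / 32) {g : ℝ}
    (hg : g ∈ X.TT (κ + 1) b) : 0 ≤ g ∧ g ≤ 1 / 32 := by
  obtain ⟨s, hs, h1⟩ := (X.mem_succ).1 hg
  obtain ⟨h2, h3⟩ := ih _ h1
  have h4 : (32 : ℝ) * (s + 1) ≤ X.N b := by exact_mod_cast X.small b s hs
  have h5 := X.Npos b
  have h6 : (0 : ℝ) ≤ s := Nat.cast_nonneg s
  constructor
  · by_contra hcon
    push Not at hcon
    nlinarith
  · by_contra hcon
    push Not at hcon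
    nlinarith

lemma bounds (κ b : ℕ) : ∀ g ∈ X.TT κ b, 0 ≤ g ∧ g ≤ 9 / 32 := by
  induction κ generalizing b with
  | zero =>
    intro g hg
    have hg' : g ∈ Set.Icc (1 / 4 : ℝ) (9 / 32) := hg
    exact ⟨by linarith [hg'.1], hg'.2⟩
  | succ κ ih =>
    intro g hg
    obtain ⟨h1, h2⟩ := X.bound_aux (ih (b + 1)) hg
    exact ⟨h1, by linarith⟩

lemma bounds_succ (κ b : ℕ) (g : ℝ) (hg : g ∈ X.TT (κ + 1) b) : 0 ≤ g ∧ g ≤ 1 / 32 :=
  X.bound_aux (X.bounds κ (b + 1)) hg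

lemma bounds_zero (b : ℕ) (g : ℝ) (hg : g ∈ X.TT 0 b) : 1 / 4 ≤ g ∧ g ≤ 9 / 32 := hg

lemma isClosed_TT (κ b : ℕ) : IsClosed (X.TT κ b) := by
  induction κ generalizing b with
  | zero => exact isClosed_Icc
  | succ κ ih =>
    unfold TT
    apply Set.Finite.isClosed_biUnion (Finset.finite_toSet (X.S b))
    intro s _
    have hc : Continuous fun g : ℝ => (X.N b : ℝ) * g - s := by fun_prop
    exact (ih (b + 1)).preimage hc

/-- four consecutive terms have the same number of digits -/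
lemma window (κ₀ : ℕ) : ∀ (b κ₁ κ₂ κ₃ : ℕ) (g₀ g₁ g₂ g₃ : ℝ) (z : ℤ), κ₀ ≤ κ₁ → κ₁ ≤ κ₂ → κ₂ ≤ κ₃ →
    g₀ ∈ X.TT κ₀ b → g₁ ∈ X.TT κ₁ b → g₂ ∈ X.TT κ₂ b → g₃ ∈ X.TT κ₃ b →
    g₀ - 3 * g₁ + 3 * g₂ - g₃ = z → z = 0 ∧ κ₁ = κ₀ ∧ κ₂ = κ₀ ∧ κ₃ = κ₀ := by
  have hint : ∀ z : ℤ, (-1 : ℝ) < z → (z : ℝ) < 1 → z = 0 := by
    intro z h1 h2
    have h3 : (-1 : ℤ) < z := by exact_mod_cast h1
    have h4 : z < 1 := by exact_mod_cast h2
    omega
  induction κ₀ with
  | zero =>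
    intro b κ₁ κ₂ κ₃ g₀ g₁ g₂ g₃ z h01 h12 h23 m0 m1 m2 m3 hz
    obtain ⟨a0, a0'⟩ := X.bounds_zero b g₀ m0
    rcases Nat.eq_zero_or_pos κ₁ with h1 | h1
    · subst h1
      obtain ⟨a1, a1'⟩ := X.bounds_zero b g₁ m1
      rcases Nat.eq_zero_or_pos κ₂ with h2 | h2
      · subst h2
        obtain ⟨a2, a2'⟩ := X.bounds_zero b g₂ m2
        rcases Nat.eq_zero_or_pos κ₃ with h3 | h3
        · subst h3
          obtain ⟨a3, a3'⟩ := X.bounds_zero b g₃ m3
          exact ⟨hint z (by linarith) (by linarith), rfl, rfl, rfl⟩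
        · obtain ⟨κ, rfl⟩ : ∃ κ, κ₃ = κ + 1 := ⟨κ₃ - 1, by omega⟩
          obtain ⟨a3, a3'⟩ := X.bounds_succ κ b g₃ m3
          have h4 := hint z (by linarith) (by linarith)
          rw [h4] at hz
          push_cast at hz
          exfalso; linarith
      · obtain ⟨κ, rfl⟩ : ∃ κ, κ₂ = κ + 1 := ⟨κ₂ - 1, by omega⟩
        obtain ⟨κ', rfl⟩ : ∃ κ, κ₃ = κ + 1 := ⟨κ₃ - 1, by omega⟩
        obtain ⟨a2, a2'⟩ := X.bounds_succ κ b g₂ m2
        obtain ⟨a3, a3'⟩ := X.bounds_succ κ' b g₃ m3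
        have h4 := hint z (by linarith) (by linarith)
        rw [h4] at hz
        push_cast at hz
        exfalso; linarith
    · obtain ⟨κ, rfl⟩ : ∃ κ, κ₁ = κ + 1 := ⟨κ₁ - 1, by omega⟩
      obtain ⟨κ', rfl⟩ : ∃ κ, κ₂ = κ + 1 := ⟨κ₂ - 1, by omega⟩
      obtain ⟨κ'', rfl⟩ : ∃ κ, κ₃ = κ + 1 := ⟨κ₃ - 1, by omega⟩
      obtain ⟨a1, a1'⟩ := X.bounds_succ κ b g₁ m1
      obtain ⟨a2, a2'⟩ := X.bounds_succ κ' b g₂ m2
      obtain ⟨a3, a3'⟩ := X.bounds_succ κ'' b g₃ m3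
      have h4 := hint z (by linarith) (by linarith)
      rw [h4] at hz
      push_cast at hz
      exfalso; linarith
  | succ κ ih =>
    intro b κ₁ κ₂ κ₃ g₀ g₁ g₂ g₃ z h01 h12 h23 m0 m1 m2 m3 hz
    obtain ⟨k1, rfl⟩ : ∃ κ, κ₁ = κ + 1 := ⟨κ₁ - 1, by omega⟩
    obtain ⟨k2, rfl⟩ : ∃ κ, κ₂ = κ + 1 := ⟨κ₂ - 1, by omega⟩
    obtain ⟨k3, rfl⟩ : ∃ κ, κ₃ = κ + 1 := ⟨κ₃ - 1, by omega⟩
    obtain ⟨a0, a0'⟩ := X.bounds_succ κ b g₀ m0
    obtain ⟨a1, a1'⟩ := X.bounds_succ k1 b g₁ m1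
    obtain ⟨a2, a2'⟩ := X.bounds_succ k2 b g₂ m2
    obtain ⟨a3, a3'⟩ := X.bounds_succ k3 b g₃ m3
    have hz0 := hint z (by linarith) (by linarith)
    rw [hz0] at hz
    push_cast at hz
    obtain ⟨s0, -, n0⟩ := X.mem_succ.1 m0
    obtain ⟨s1, -, n1⟩ := X.mem_succ.1 m1
    obtain ⟨s2, -, n2⟩ := X.mem_succ.1 m2
    obtain ⟨s3, -, n3⟩ := X.mem_succ.1 m3
    have h5 := ih (b + 1) k1 k2 k3 _ _ _ _ (-((s0 : ℤ) - 3 * s1 + 3 * s2 - s3))
      (by omega) (by omega) (by omega) n0 n1 n2 n3 (by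
        push_cast
        have : (X.N b : ℝ) * (g₀ - 3 * g₁ + 3 * g₂ - g₃) = 0 := by rw [hz, mul_zero]
        linarith)
    exact ⟨hz0, by omega, by omega, by omega⟩

/-- product of the radices -/
def PN (b κ : ℕ) : ℕ := ∏ i ∈ range κ, X.N (b + i)

lemma PN_succ (b κ : ℕ) : X.PN b (κ + 1) = X.N b * X.PN (b + 1) κ := by
  unfold PN
  rw [Finset.prod_range_succ', mul_comm, Nat.add_zero]
  have h : ∏ i ∈ range κ, X.N (b + (i + 1)) = ∏ i ∈ range κ, X.N (b + 1 + i) := by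
    apply Finset.prod_congr rfl
    intro i _
    have : b + (i + 1) = b + 1 + i := by omega
    rw [this]
  rw [h]

lemma PN_pos (b κ : ℕ) : 0 < X.PN b κ :=
  Finset.prod_pos fun i _ => lt_of_lt_of_le (by norm_num) (X.pos _)

/-- progressions in a target set are almost constant -/
lemma close (k : ℕ) (hG : ∀ b, Good 2 k (X.S b)) (κ : ℕ) : ∀ (b : ℕ) (g : ℕ → ℝ),
    (∀ j < k, g j ∈ X.TT κ b) →
    (∀ j, j + 3 < k → g j - 3 * g (j + 1) + 3 * g (j + 2) - g (j + 3) = 0) →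
    ∀ j < k, |g j - g 0| ≤ 1 / 32 / X.PN b κ := by
  induction κ with
  | zero =>
    intro b g hg _ j hj
    obtain ⟨h1, h2⟩ := X.bounds_zero b _ (hg j hj)
    obtain ⟨h3, h4⟩ := X.bounds_zero b _ (hg 0 (by omega))
    unfold PN
    rw [Finset.prod_range_zero, Nat.cast_one, div_one, abs_le]
    constructor <;> linarith
  | succ κ ih =>
    intro b g hg hz j hj
    have hex : ∀ j, ∃ s : ℕ, j < k → s ∈ X.S b ∧ (X.N b : ℝ) * g j - s ∈ X.TT κ (b + 1) := by
      intro j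
      by_cases hj : j < k
      · obtain ⟨s, hs, h1⟩ := X.mem_succ.1 (hg j hj)
        exact ⟨s, fun _ => ⟨hs, h1⟩⟩
      · exact ⟨0, fun h => absurd h hj⟩
    choose s hs using hex
    have hN := X.Npos b
    have hw : ∀ j, j + 3 < k → ((s j : ℤ) - 3 * s (j + 1) + 3 * s (j + 2) - s (j + 3) = 0) := by
      intro j hj
      have h1 := X.window κ (b + 1) κ κ κ _ _ _ _
        (-((s j : ℤ) - 3 * s (j + 1) + 3 * s (j + 2) - s (j + 3))) le_rfl le_rfl le_rfl
        (hs j (by omega)).2 (hs (j + 1) (by omega)).2 (hs (j + 2) (by omega)).2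
        (hs (j + 3) (by omega)).2 (by
          push_cast
          have : (X.N b : ℝ) * (g j - 3 * g (j + 1) + 3 * g (j + 2) - g (j + 3)) = 0 := by
            rw [hz j hj, mul_zero]
          linarith)
      omega
    have hconst := hG b (fun j => (s j : ℤ)) (fun j hj => ⟨s j, (hs j hj).1, rfl⟩) (by
      intro j hj
      have h1 := hw j (by omega)
      unfold dd
      simp only [Finset.sum_range_succ, Finset.sum_range_zero, cf]
      norm_num [Nat.choose]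
      have e0 : (j + 0) = j := rfl
      linarith)
    have h2 := ih (b + 1) (fun j => (X.N b : ℝ) * g j - s j) (fun j hj => (hs j hj).2) (by
      intro j hj
      have h3 : (((s j : ℤ) - 3 * s (j + 1) + 3 * s (j + 2) - s (j + 3) : ℤ) : ℝ) = 0 := by
        rw [hw j hj]; simp
      push_cast at h3
      have : (X.N b : ℝ) * (g j - 3 * g (j + 1) + 3 * g (j + 2) - g (j + 3)) = 0 := by
        rw [hz j hj, mul_zero]
      linarith) j hj
    have h3 : (s j : ℝ) = s 0 := by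
      have h5 : (s j : ℤ) = (s 0 : ℤ) := hconst j hj
      exact_mod_cast h5
    rw [h3] at h2
    have h4 : (X.N b : ℝ) * g j - s 0 - ((X.N b : ℝ) * g 0 - s 0) = X.N b * (g j - g 0) := by ring
    rw [h4, abs_mul, abs_of_pos (by linarith)] at h2
    rw [PN_succ]
    push_cast
    have hP : (0 : ℝ) < X.PN (b + 1) κ := by exact_mod_cast X.PN_pos (b + 1) κ
    rw [le_div_iff₀ (by positivity)] at h2 ⊢
    calc |g j - g 0| * ((X.N b : ℝ) * X.PN (b + 1) κ)
        = (X.N b : ℝ) * |g j - g 0| * X.PN (b + 1) κ := by ring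
      _ ≤ 1 / 32 := h2

/-- density of the target sets -/
noncomputable def dens (κ b : ℕ) : ℝ := 1 / 32 * ∏ i ∈ range κ, ((X.S (b + i)).card : ℝ) / X.N (b + i)

lemma dens_nonneg (κ b : ℕ) : 0 ≤ X.dens κ b := by
  unfold dens
  apply mul_nonneg (by norm_num)
  exact Finset.prod_nonneg fun i _ => by positivity

lemma volume_TT (κ b : ℕ) : volume (X.TT κ b) = ENNReal.ofReal (X.dens κ b) := by
  induction κ generalizing b with
  | zero =>
    have : X.TT 0 b = Set.Icc (1 / 4 : ℝ) (9 / 32) := rfl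
    rw [this, Real.volume_Icc]
    unfold dens
    norm_num
  | succ κ ih =>
    have hN := X.Npos b
    have h1 : X.TT (κ + 1) b = ⋃ s ∈ X.S b, {g : ℝ | (X.N b : ℝ) * g - s ∈ X.TT κ (b + 1)} := rfl
    have hmeas : ∀ s : ℕ, MeasurableSet {g : ℝ | (X.N b : ℝ) * g - s ∈ X.TT κ (b + 1)} := by
      intro s
      have hc : Continuous fun g : ℝ => (X.N b : ℝ) * g - s := by fun_prop
      exact ((X.isClosed_TT κ (b + 1)).preimage hc).measurableSet
    have hvol : ∀ s : ℕ, volume {g : ℝ | (X.N b : ℝ) * g - s ∈ X.TT κ (b + 1)}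
        = ENNReal.ofReal (X.N b : ℝ)⁻¹ * ENNReal.ofReal (X.dens κ (b + 1)) := by
      intro s
      have h2 : {g : ℝ | (X.N b : ℝ) * g - s ∈ X.TT κ (b + 1)}
          = (fun g : ℝ => (X.N b : ℝ) * g) ⁻¹' ((fun g : ℝ => g + (-s)) ⁻¹' (X.TT κ (b + 1))) := by
        ext g
        simp [sub_eq_add_neg]
      have hN0 : (X.N b : ℝ) ≠ 0 := by
        have : (0 : ℝ) < X.N b := by linarith
        exact this.ne'
      rw [h2, Real.volume_preimage_mul_left hN0, measure_preimage_add_right, ih,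
        abs_of_pos (by positivity)]
    rw [h1, measure_biUnion_finset _ (fun s _ => hmeas s)]
    · rw [Finset.sum_congr rfl fun s _ => hvol s, Finset.sum_const, nsmul_eq_mul,
        ← ENNReal.ofReal_mul (by positivity), ← ENNReal.ofReal_natCast,
        ← ENNReal.ofReal_mul (by positivity)]
      congr 1
      unfold dens
      rw [Finset.prod_range_succ']
      have h3 : ∏ i ∈ range κ, ((X.S (b + (i + 1))).card : ℝ) / X.N (b + (i + 1))
          = ∏ i ∈ range κ, ((X.S (b + 1 + i)).card : ℝ) / X.N (b + 1 + i) := by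
        apply Finset.prod_congr rfl
        intro i _
        have : b + (i + 1) = b + 1 + i := by ring
        rw [this]
      rw [h3]
      simp only [Nat.add_zero]
      ring
    · intro s _ s' _ hss
      rw [Function.onFun, Set.disjoint_left]
      intro g hg hg'
      obtain ⟨h2, h3⟩ := X.bounds κ (b + 1) _ hg
      obtain ⟨h4, h5⟩ := X.bounds κ (b + 1) _ hg'
      apply hss
      have h6 : (s : ℝ) < s' + 1 := by linarith
      have h7 : (s' : ℝ) < s + 1 := by linarith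
      have h8 : s < s' + 1 := by exact_mod_cast h6
      have h9 : s' < s + 1 := by exact_mod_cast h7
      omega

/-- target set on the circle -/
def T (κ : ℕ) : Set UnitAddCircle := (fun g : ℝ => (g : UnitAddCircle)) '' X.TT κ 0

lemma isCompact_TT (κ b : ℕ) : IsCompact (X.TT κ b) :=
  Metric.isCompact_of_isClosed_isBounded (X.isClosed_TT κ b)
    ((Metric.isBounded_Icc (0 : ℝ) (9 / 32)).subset fun g hg => X.bounds κ b g hg)

lemma measurable_T (κ : ℕ) : MeasurableSet (X.T κ) :=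
  ((X.isCompact_TT κ 0).image (AddCircle.continuous_mk' 1)).isClosed.measurableSet

lemma volume_T (κ : ℕ) : ENNReal.ofReal (X.dens κ 0) ≤ volume (X.T κ) := by
  rw [AddCircle.add_projection_respects_measure 1 (-1 / 2) (X.measurable_T κ), ← X.volume_TT κ 0]
  apply measure_mono
  intro g hg
  obtain ⟨h1, h2⟩ := X.bounds κ 0 g hg
  refine ⟨⟨g, hg, rfl⟩, ?_, ?_⟩ <;> linarith

end Dig

end Pool.SG69
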