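import Mathlib

/-!
# Random additive functions with values in the circle
-/

set_option autoImplicit false

open MeasureTheory Finset

namespace Pool.SG69

/-- the circle -/
abbrev 𝕋 : Type := UnitAddCircle

/-- the completely additive function with values `θ p` at the primes `p` -/
noncomputable def F (θ : ℕ → 𝕋) (n : ℕ) : 𝕋 := n.factorization.sum fun p v => v • θ p

lemma F_eq (θ : ℕ → 𝕋) (n : ℕ) : F θ n = ∑ p ∈ n.primeFactors, n.factorization p • θ p := rfl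

lemma F_mul (θ : ℕ → 𝕋) {a b : ℕ} (ha : a ≠ 0) (hb : b ≠ 0) : F θ (a * b) = F θ a + F θ b := by
  unfold F
  rw [Nat.factorization_mul ha hb, Finsupp.sum_add_index']
  · intro p; simp
  · intro p v w; rw [add_smul]

/-- the family of values as a homomorphism -/
noncomputable def Ψ (B : Finset ℕ) : (ℕ → 𝕋) →+ (B → 𝕋) where
  toFun θ n := F θ n.1
  map_zero' := by funext n; simp [F_eq]
  map_add' θ θ' := by funext n; simp [F_eq, Finset.sum_add_distrib]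

lemma continuous_Ψ (B : Finset ℕ) : Continuous (Ψ B) := by
  apply continuous_pi
  intro n
  show Continuous fun θ : ℕ → 𝕋 => ∑ p ∈ n.1.primeFactors, n.1.factorization p • θ p
  fun_prop

lemma circle_div (v : ℕ) (hv : v ≠ 0) (t : 𝕋) : ∃ s : 𝕋, v • s = t := by
  obtain ⟨x, rfl⟩ := QuotientAddGroup.mk_surjective t
  refine ⟨((x / v : ℝ) : 𝕋), ?_⟩
  have hv' : (v : ℝ) ≠ 0 := by exact_mod_cast hv
  have : v • ((x / v : ℝ) : 𝕋) = ((v • (x / v) : ℝ) : 𝕋) := rfl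
  rw [this, nsmul_eq_mul, mul_div_cancel₀ _ hv']

lemma surjective_Ψ (B : Finset ℕ) (q : ℕ → ℕ) (hq : ∀ n ∈ B, q n ∈ n.primeFactors)
    (hq' : ∀ n ∈ B, ∀ n' ∈ B, q n ∣ n' → n' = n) : Function.Surjective (Ψ B) := by
  classical
  intro t
  have h1 : ∀ n : B, ∃ s : 𝕋, n.1.factorization (q n.1) • s = t n := by
    intro n
    apply circle_div
    have h2 := hq n.1 n.2
    rw [← Nat.support_factorization, Finsupp.mem_support_iff] at h2
    exact h2
  choose s hs using h1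
  refine ⟨fun p => if h : ∃ n : B, q n.1 = p then s h.choose else 0, ?_⟩
  funext n
  show F _ n.1 = t n
  rw [F_eq, Finset.sum_eq_single (q n.1)]
  · have h : ∃ m : B, q m.1 = q n.1 := ⟨n, rfl⟩
    rw [dif_pos h]
    have h2 : h.choose = n := by
      apply Subtype.ext
      have h3 := h.choose_spec
      have h4 := Nat.dvd_of_mem_primeFactors (hq n.1 n.2)
      rw [← h3] at h4
      exact (hq' h.choose.1 h.choose.2 n.1 n.2 h4).symm
    rw [h2, hs]
  · intro p hp hpn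
    have h : ¬ ∃ m : B, q m.1 = p := by
      rintro ⟨m, rfl⟩
      have h4 := Nat.dvd_of_mem_primeFactors hp
      have h5 := hq' m.1 m.2 n.1 n.2 h4
      rw [h5] at hpn
      exact hpn rfl
    rw [dif_neg h, smul_zero]
  · intro h
    exact absurd (hq n.1 n.2) h

/-- the probability measure -/
noncomputable def Pr : Measure (ℕ → 𝕋) := Measure.addHaarMeasure ⊤

instance : Measure.IsAddHaarMeasure Pr := by unfold Pr; infer_instance

lemma Pr_univ : Pr Set.univ = 1 := by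
  unfold Pr
  rw [← TopologicalSpace.PositiveCompacts.coe_top]
  exact Measure.addHaarMeasure_self

instance : IsProbabilityMeasure Pr := ⟨Pr_univ⟩

lemma measurePreserving_Ψ (B : Finset ℕ) (q : ℕ → ℕ) (hq : ∀ n ∈ B, q n ∈ n.primeFactors)
    (hq' : ∀ n ∈ B, ∀ n' ∈ B, q n ∣ n' → n' = n) :
    MeasurePreserving (Ψ B) Pr (volume : Measure (B → 𝕋)) := by
  apply AddMonoidHom.measurePreserving (continuous_Ψ B) (surjective_Ψ B q hq hq')
  rw [Pr_univ, volume_pi, ← Set.pi_univ Set.univ, Measure.pi_pi]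
  simp

/-- independence -/
lemma indep (B : Finset ℕ) (q : ℕ → ℕ) (hq : ∀ n ∈ B, q n ∈ n.primeFactors)
    (hq' : ∀ n ∈ B, ∀ n' ∈ B, q n ∣ n' → n' = n) (g : ℕ → 𝕋) (T : ℕ → Set 𝕋)
    (hT : ∀ n, MeasurableSet (T n)) :
    Pr {θ | ∀ n ∈ B, g n + F θ n ∉ T n} = ∏ n ∈ B, (1 - volume (T n)) := by
  have h1 : {θ : ℕ → 𝕋 | ∀ n ∈ B, g n + F θ n ∉ T n}
      = (Ψ B) ⁻¹' (Set.univ.pi fun n : B => ((fun x : 𝕋 => g n.1 + x) ⁻¹' (T n.1))ᶜ) := by
    ext θ
    simp only [Set.mem_ofPred_eq, Set.mem_preimage, Set.mem_pi, Set.mem_univ, true_implies,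
      Set.mem_compl_iff, Subtype.forall]
    rfl
  have hm : ∀ n : B, MeasurableSet ((fun x : 𝕋 => g n.1 + x) ⁻¹' (T n.1)) := fun n =>
    (measurable_const_add (g n.1)) (hT n.1)
  rw [h1, (measurePreserving_Ψ B q hq hq').measure_preimage
    (MeasurableSet.univ_pi fun n => (hm n).compl).nullMeasurableSet, volume_pi, Measure.pi_pi]
  rw [← Finset.prod_coe_sort B (fun n => 1 - volume (T n))]
  apply Finset.prod_congr rfl
  intro n _
  rw [measure_compl (hm n) (measure_ne_top _ _), measure_preimage_add]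
  simp

/-- existence of a good choice of `θ` -/
lemma exists_theta (g : ℕ → 𝕋) (T : ℕ → Set 𝕋) (hT : ∀ n, MeasurableSet (T n))
    (W : ℕ → Finset ℕ) (N₀ : ℕ) (hN₀ : 2 ≤ N₀)
    (hq : ∀ N, N₀ ≤ N → ∃ q : ℕ → ℕ, (∀ n ∈ W N, q n ∈ n.primeFactors) ∧
      ∀ n ∈ W N, ∀ n' ∈ W N, q n ∣ n' → n' = n)
    (hε : ∀ N, N₀ ≤ N → ∏ n ∈ W N, (1 - volume (T n)) ≤ ENNReal.ofReal (1 / (N * (N + 1)))) :
    ∃ θ : ℕ → 𝕋, ∀ N, N₀ ≤ N → ∃ n ∈ W N, g n + F θ n ∈ T n := by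
  set bad : ℕ → Set (ℕ → 𝕋) := fun j => {θ | ∀ n ∈ W (N₀ + j), g n + F θ n ∉ T n} with hbad
  have h1 : ∀ j, Pr (bad j) ≤ ENNReal.ofReal (1 / (((N₀ + j : ℕ) : ℝ) * (((N₀ + j : ℕ) : ℝ) + 1))) := by
    intro j
    obtain ⟨q, hq1, hq2⟩ := hq (N₀ + j) (by omega)
    rw [hbad]
    simp only
    rw [indep (W (N₀ + j)) q hq1 hq2 g T hT]
    exact hε (N₀ + j) (by omega)
  have hN0 : (2 : ℝ) ≤ N₀ := by exact_mod_cast hN₀
  have h2 : Pr (⋃ j, bad j) ≤ ENNReal.ofReal (1 / N₀) := by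
    refine (measure_iUnion_le _).trans ?_
    apply ENNReal.tsum_le_of_sum_range_le
    intro K
    refine (Finset.sum_le_sum fun j _ => h1 j).trans ?_
    rw [← ENNReal.ofReal_sum_of_nonneg (fun j _ => by positivity)]
    apply ENNReal.ofReal_le_ofReal
    have h3 : ∀ K : ℕ, ∑ j ∈ Finset.range K,
        (1 / (((N₀ + j : ℕ) : ℝ) * (((N₀ + j : ℕ) : ℝ) + 1))) = 1 / N₀ - 1 / ((N₀ : ℝ) + K) := by
      intro K
      induction K with
      | zero => simp
      | succ K ih =>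
        rw [Finset.sum_range_succ, ih]
        have : (0 : ℝ) < (N₀ : ℝ) + K := by positivity
        push_cast
        field_simp
        ring
    rw [h3]
    have : 0 ≤ 1 / ((N₀ : ℝ) + K) := by positivity
    linarith
  have h3 : Pr (⋃ j, bad j) < 1 := by
    refine lt_of_le_of_lt h2 ?_
    rw [← ENNReal.ofReal_one]
    apply (ENNReal.ofReal_lt_ofReal_iff one_pos).2
    rw [div_lt_one (by linarith)]
    linarith
  have h4 : ∃ θ, θ ∉ ⋃ j, bad j := by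
    by_contra hcon
    push Not at hcon
    have h5 : (⋃ j, bad j) = Set.univ := Set.eq_univ_of_forall hcon
    rw [h5, Pr_univ] at h3
    exact lt_irrefl _ h3
  obtain ⟨θ, hθ⟩ := h4
  refine ⟨θ, fun N hN => ?_⟩
  by_contra hcon
  push Not at hcon
  apply hθ
  rw [Set.mem_iUnion]
  refine ⟨N - N₀, ?_⟩
  show ∀ n ∈ W (N₀ + (N - N₀)), g n + F θ n ∉ T n
  rw [Nat.add_sub_cancel' hN]
  exact hcon

/-- a sequence from a set with bounded gaps -/
lemma seq_exists (A : Set ℕ) (n₀ : ℕ) (H : ℕ → ℕ)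
    (h : ∀ n, n₀ ≤ n → ∃ x ∈ A, n < x ∧ x ≤ n + H n) :
    ∃ a : ℕ → ℕ, StrictMono a ∧ (∀ i, a i ∈ A) ∧ (∀ i, n₀ < a i) ∧
      (∀ i, a (i + 1) ≤ a i + H (a i)) := by
  obtain ⟨x₀, hx₀A, hx₀, _⟩ := h n₀ le_rfl
  let S := {n : ℕ // n ∈ A ∧ n₀ < n}
  have hstep : ∀ s : S, ∃ s' : S, s.1 < s'.1 ∧ s'.1 ≤ s.1 + H s.1 := by
    intro s
    obtain ⟨x, hxA, hx1, hx2⟩ := h s.1 s.2.2.le
    exact ⟨⟨x, hxA, by have := s.2.2; omega⟩, hx1, hx2⟩
  choose g hg1 hg2 using hstep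
  let a : ℕ → S := fun i => Nat.rec ⟨x₀, hx₀A, hx₀⟩ (fun _ s => g s) i
  refine ⟨fun i => (a i).1, ?_, ?_, ?_, ?_⟩
  · apply strictMono_nat_of_lt_succ
    intro i
    exact hg1 (a i)
  · intro i; exact (a i).2.1
  · intro i; exact (a i).2.2
  · intro i; exact hg2 (a i)

end Pool.SG69
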