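import Mathlib

/-!
# The real inequality behind the theorem on three terms
-/

set_option autoImplicit false

open Finset

namespace Pool.SG69

lemma per_prime (a e τ : ℝ) (h0 : 0 ≤ τ) (h1 : τ ≤ 1 / 2) :
    e ^ 2 / 2 - 10 * a ^ 2 * τ ^ 2 ≤ (a - e) ^ 2 / (1 - τ) ^ 2 + (a + e) ^ 2 / (1 + τ) ^ 2
      - 2 * a ^ 2 := by
  have p1 : 0 < (1 - τ) ^ 2 := by
    have : 0 < 1 - τ := by linarith
    positivity
  have p2 : 0 < (1 + τ) ^ 2 := by positivity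
  have q1 : 1 - τ ≠ 0 := by
    have : 0 < 1 - τ := by linarith
    exact this.ne'
  have q2 : 1 + τ ≠ 0 := by
    have : 0 < 1 + τ := by linarith
    exact this.ne'
  have h2 : (a - e) ^ 2 / (1 - τ) ^ 2 + (a + e) ^ 2 / (1 + τ) ^ 2 - 2 * a ^ 2
      = ((a - e) ^ 2 * (1 + τ) ^ 2 + (a + e) ^ 2 * (1 - τ) ^ 2
        - 2 * a ^ 2 * ((1 - τ) ^ 2 * (1 + τ) ^ 2)) / ((1 - τ) ^ 2 * (1 + τ) ^ 2) := by
    field_simp
  rw [h2, le_div_iff₀ (mul_pos p1 p2)]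
  have hT : τ ^ 2 ≤ 1 / 4 := by nlinarith
  have hT0 : 0 ≤ τ ^ 2 := sq_nonneg τ
  have hA : 0 ≤ 2 + 2 * τ ^ 2 - (1 - τ ^ 2) ^ 2 / 2 - 3 / 2 := by nlinarith
  have hB : 0 ≤ 6 - 2 * τ ^ 2 + 10 * (1 - τ ^ 2) ^ 2 - 32 / 3 := by nlinarith
  have k1 := mul_nonneg (sq_nonneg e) hA
  have k2 := mul_nonneg (sq_nonneg (a * τ)) hB
  have k3 := sq_nonneg (e - 8 / 3 * (a * τ))
  nlinarith

/-- convexity of `1 / log` -/
lemma log_part (x₀ x₂ s : ℝ) (h1 : 1 < x₀) (h02 : x₀ < x₂) (hs : 2 * s = x₀ + x₂) :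
    ((s - x₀) / s) ^ 2 / (Real.log s) ^ 2 ≤ 1 / Real.log x₀ + 1 / Real.log x₂ - 2 / Real.log s := by
  have hs1 : 1 < s := by linarith
  have hs0 : 0 < s := by linarith
  set τ := (s - x₀) / s with hτ
  have hx0 : x₀ = s * (1 - τ) := by rw [hτ]; field_simp; ring
  have hx2 : x₂ = s * (1 + τ) := by
    rw [hτ]; field_simp; linarith
  have hτ0 : 0 < τ := by rw [hτ]; apply div_pos <;> linarith
  have hτ1 : τ < 1 := by rw [hτ, div_lt_one hs0]; linarith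
  set l := Real.log s with hl
  have hl0 : 0 < l := Real.log_pos hs1
  have e0 : Real.log x₀ = l + Real.log (1 - τ) := by
    rw [hx0, Real.log_mul hs0.ne' (by linarith)]
  have e2 : Real.log x₂ = l + Real.log (1 + τ) := by
    rw [hx2, Real.log_mul hs0.ne' (by linarith)]
  set p := -Real.log (1 - τ) with hp
  set q := Real.log (1 + τ) with hq
  have hq0 : 0 < q := Real.log_pos (by linarith)
  have hpq : τ ^ 2 ≤ p - q := by
    have h3 : Real.log (1 - τ ^ 2) = Real.log (1 - τ) + Real.log (1 + τ) := by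
      rw [← Real.log_mul (by linarith) (by linarith)]; congr 1; ring
    have h4 : Real.log (1 - τ ^ 2) ≤ (1 - τ ^ 2) - 1 :=
      Real.log_le_sub_one_of_pos (by nlinarith)
    rw [hp, hq]
    linarith
  have hp0 : 0 < p := by nlinarith
  have hx0l : 0 < Real.log x₀ := Real.log_pos h1
  have f0 : Real.log x₀ = l - p := by rw [e0, hp]; ring
  rw [f0] at hx0l
  rw [f0, e2]
  have g0 : 1 / l + p / l ^ 2 ≤ 1 / (l - p) := by
    rw [le_div_iff₀ hx0l]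
    have : (1 / l + p / l ^ 2) * (l - p) = 1 - p ^ 2 / l ^ 2 := by field_simp; ring
    rw [this]
    have : 0 ≤ p ^ 2 / l ^ 2 := by positivity
    linarith
  have g2 : 1 / l - q / l ^ 2 ≤ 1 / (l + q) := by
    rw [le_div_iff₀ (by linarith)]
    have : (1 / l - q / l ^ 2) * (l + q) = 1 - q ^ 2 / l ^ 2 := by field_simp; ring
    rw [this]
    have : 0 ≤ q ^ 2 / l ^ 2 := by positivity
    linarith
  have g3 : τ ^ 2 / l ^ 2 ≤ (p - q) / l ^ 2 := by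
    apply div_le_div_of_nonneg_right hpq (by positivity)
  have g4 : (p - q) / l ^ 2 = p / l ^ 2 - q / l ^ 2 := by ring
  have g5 : 2 / l = 1 / l + 1 / l := by ring
  rw [g5]
  linarith

lemma defect_lower {ι : Type} (S : Finset ι) (u a w : ι → ℝ) (x₀ x₂ s : ℝ) (h1 : 1 < x₀)
    (h02 : x₀ < x₂) (hs : 2 * s = x₀ + x₂) (hmid : ∀ p ∈ S, u p + w p = 2 * a p)
    (hK : (∑ p ∈ S, a p ^ 2) * (Real.log s) ^ 2 ≤ 9 * s ^ 2)
    (hu : 1 ≤ ∑ p ∈ S, u p ^ 2) (he : 1 ≤ ∑ p ∈ S, (a p - u p) ^ 2) :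
    1 / (8 * x₀ ^ 2) ≤ (∑ p ∈ S, u p ^ 2) / x₀ ^ 2 + (∑ p ∈ S, w p ^ 2) / x₂ ^ 2
      - 2 * (∑ p ∈ S, a p ^ 2) / s ^ 2
      + 90 * (1 / Real.log x₀ + 1 / Real.log x₂ - 2 / Real.log s) := by
  have hs1 : 1 < s := by linarith
  have hs0 : 0 < s := by linarith
  have hx00 : 0 < x₀ := by linarith
  have hx20 : 0 < x₂ := by linarith
  have hlog := log_part x₀ x₂ s h1 h02 hs
  set τ := (s - x₀) / s with hτ
  have hx0 : x₀ = s * (1 - τ) := by rw [hτ]; field_simp; ring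
  have hx2 : x₂ = s * (1 + τ) := by
    rw [hτ]; field_simp; linarith
  have hτ0 : 0 < τ := by rw [hτ]; apply div_pos <;> linarith
  have hτ1 : τ < 1 := by rw [hτ, div_lt_one hs0]; linarith
  have hl0 : 0 < Real.log s := Real.log_pos hs1
  have hAl : (∑ p ∈ S, a p ^ 2) / s ^ 2 ≤ 9 / (Real.log s) ^ 2 := by
    rw [div_le_div_iff₀ (by positivity) (by positivity)]
    exact hK
  have hA0 : 0 ≤ (∑ p ∈ S, a p ^ 2) / s ^ 2 :=
    div_nonneg (Finset.sum_nonneg fun _ _ => sq_nonneg _) (sq_nonneg _)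
  have hw0 : 0 ≤ (∑ p ∈ S, w p ^ 2) / x₂ ^ 2 :=
    div_nonneg (Finset.sum_nonneg fun _ _ => sq_nonneg _) (sq_nonneg _)
  have e9 : 2 * (∑ p ∈ S, a p ^ 2) / s ^ 2 = 2 * ((∑ p ∈ S, a p ^ 2) / s ^ 2) := by ring
  rcases le_or_gt τ (1 / 2) with hcase | hcase
  · -- small ratio
    have hsum : ∑ p ∈ S, ((a p - u p) ^ 2 / 2 - 10 * (a p) ^ 2 * τ ^ 2) ≤
        ∑ p ∈ S, ((u p) ^ 2 / (1 - τ) ^ 2 + (w p) ^ 2 / (1 + τ) ^ 2 - 2 * (a p) ^ 2) := by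
      apply Finset.sum_le_sum
      intro p hp
      have h := per_prime (a p) (a p - u p) τ hτ0.le hcase
      have e1 : a p - (a p - u p) = u p := by ring
      have e2 : a p + (a p - u p) = w p := by have := hmid p hp; linarith
      rw [e1, e2] at h
      exact h
    have e3 : ∑ p ∈ S, ((a p - u p) ^ 2 / 2 - 10 * (a p) ^ 2 * τ ^ 2)
        = (∑ p ∈ S, (a p - u p) ^ 2) / 2 - 10 * (∑ p ∈ S, a p ^ 2) * τ ^ 2 := by
      rw [Finset.sum_sub_distrib, ← Finset.sum_div, ← Finset.sum_mul, ← Finset.mul_sum]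
    have e4 : ∑ p ∈ S, ((u p) ^ 2 / (1 - τ) ^ 2 + (w p) ^ 2 / (1 + τ) ^ 2 - 2 * (a p) ^ 2)
        = (∑ p ∈ S, u p ^ 2) / (1 - τ) ^ 2 + (∑ p ∈ S, w p ^ 2) / (1 + τ) ^ 2
          - 2 * (∑ p ∈ S, a p ^ 2) := by
      rw [Finset.sum_sub_distrib, Finset.sum_add_distrib, ← Finset.sum_div, ← Finset.sum_div,
        ← Finset.mul_sum]
    rw [e3, e4] at hsum
    have e5 : (∑ p ∈ S, u p ^ 2) / x₀ ^ 2 = (∑ p ∈ S, u p ^ 2) / (1 - τ) ^ 2 / s ^ 2 := by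
      rw [div_div, hx0]; congr 1; ring
    have e6 : (∑ p ∈ S, w p ^ 2) / x₂ ^ 2 = (∑ p ∈ S, w p ^ 2) / (1 + τ) ^ 2 / s ^ 2 := by
      rw [div_div, hx2]; congr 1; ring
    have hdiv := div_le_div_of_nonneg_right hsum (sq_nonneg s)
    have e7 : ((∑ p ∈ S, u p ^ 2) / (1 - τ) ^ 2 + (∑ p ∈ S, w p ^ 2) / (1 + τ) ^ 2
          - 2 * (∑ p ∈ S, a p ^ 2)) / s ^ 2
        = (∑ p ∈ S, u p ^ 2) / x₀ ^ 2 + (∑ p ∈ S, w p ^ 2) / x₂ ^ 2
          - 2 * (∑ p ∈ S, a p ^ 2) / s ^ 2 := by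
      rw [e5, e6]; ring
    have e8 : ((∑ p ∈ S, (a p - u p) ^ 2) / 2 - 10 * (∑ p ∈ S, a p ^ 2) * τ ^ 2) / s ^ 2
        = (∑ p ∈ S, (a p - u p) ^ 2) / 2 / s ^ 2 - 10 * τ ^ 2 * ((∑ p ∈ S, a p ^ 2) / s ^ 2) := by
      ring
    rw [e7, e8] at hdiv
    have k1 : 10 * τ ^ 2 * ((∑ p ∈ S, a p ^ 2) / s ^ 2) ≤ 90 * (τ ^ 2 / (Real.log s) ^ 2) := by
      have := mul_le_mul_of_nonneg_left hAl (show (0 : ℝ) ≤ 10 * τ ^ 2 by positivity)
      have e10 : 10 * τ ^ 2 * (9 / Real.log s ^ 2) = 90 * (τ ^ 2 / (Real.log s) ^ 2) := by ring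
      rw [e10] at this
      exact this
    have k2 : 1 / 2 / s ^ 2 ≤ (∑ p ∈ S, (a p - u p) ^ 2) / 2 / s ^ 2 := by
      apply div_le_div_of_nonneg_right _ (sq_nonneg s)
      linarith
    have k3 : 1 / (8 * x₀ ^ 2) ≤ 1 / 2 / s ^ 2 := by
      rw [div_div]
      apply one_div_le_one_div_of_le (by positivity)
      have h5 : s ≤ 2 * x₀ := by
        have : s * (1 / 2) ≤ s * (1 - τ) := mul_le_mul_of_nonneg_left (by linarith) hs0.le
        rw [hx0]; linarith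
      have h6 : s ^ 2 ≤ (2 * x₀) ^ 2 := pow_le_pow_left₀ hs0.le h5 2
      have h7 : (2 * x₀) ^ 2 = 4 * x₀ ^ 2 := by ring
      linarith
    linarith
  · -- large ratio
    have k1 : 1 / x₀ ^ 2 ≤ (∑ p ∈ S, u p ^ 2) / x₀ ^ 2 :=
      div_le_div_of_nonneg_right hu (sq_nonneg x₀)
    have hq : (1 : ℝ) / 4 ≤ τ ^ 2 := by
      have : (1 / 2 : ℝ) ^ 2 ≤ τ ^ 2 := pow_le_pow_left₀ (by norm_num) hcase.le 2
      norm_num at this ⊢
      exact this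
    have k2 : 1 / 4 / (Real.log s) ^ 2 ≤ τ ^ 2 / (Real.log s) ^ 2 :=
      div_le_div_of_nonneg_right hq (sq_nonneg _)
    have k3 : 2 * ((∑ p ∈ S, a p ^ 2) / s ^ 2) ≤ 90 * (1 / 4 / (Real.log s) ^ 2) := by
      have e10 : 90 * (1 / 4 / (Real.log s) ^ 2) = 2 * (9 / Real.log s ^ 2)
          + 9 / 2 / (Real.log s) ^ 2 := by ring
      rw [e10]
      have : 0 ≤ 9 / 2 / (Real.log s) ^ 2 := by positivity
      linarith
    have k4 : 1 / (8 * x₀ ^ 2) ≤ 1 / x₀ ^ 2 := by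
      apply one_div_le_one_div_of_le (by positivity)
      have : 0 ≤ x₀ ^ 2 := sq_nonneg x₀
      linarith
    linarith

end Pool.SG69
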