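import Pool.Agent.Work.MP_b928c0_sg_helper69.Allow
import Pool.Agent.Work.MP_b928c0_sg_helper69.Real3

/-!
# Sequences without geometric progressions of length three
-/

set_option autoImplicit false

open Finset MeasureTheory

namespace Pool.SG69

lemma prod_bound (W : Finset ℕ) (T : ℕ → Set 𝕋) (β : ℝ) (hβ0 : 0 ≤ β)
    (hT : ∀ n ∈ W, ENNReal.ofReal β ≤ volume (T n)) (N : ℕ) (hN : 1 ≤ N)
    (hc : 2 * Real.log (N + 1) ≤ β * W.card) :
    ∏ n ∈ W, (1 - volume (T n)) ≤ ENNReal.ofReal (1 / (N * (N + 1))) := by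
  have hN' : (1 : ℝ) ≤ N := by exact_mod_cast hN
  have h1 : ∀ n ∈ W, 1 - volume (T n) ≤ ENNReal.ofReal (Real.exp (-β)) := by
    intro n hn
    calc 1 - volume (T n) ≤ 1 - ENNReal.ofReal β := tsub_le_tsub_left (hT n hn) _
      _ = ENNReal.ofReal (1 - β) := by
          rw [← ENNReal.ofReal_one, ENNReal.ofReal_sub _ hβ0]
      _ ≤ ENNReal.ofReal (Real.exp (-β)) := by
          apply ENNReal.ofReal_le_ofReal
          have := Real.add_one_le_exp (-β)
          linarith
  calc ∏ n ∈ W, (1 - volume (T n)) ≤ ∏ _n ∈ W, ENNReal.ofReal (Real.exp (-β)) :=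
        Finset.prod_le_prod' h1
    _ = ENNReal.ofReal (Real.exp (-β)) ^ W.card := by rw [Finset.prod_const]
    _ = ENNReal.ofReal (Real.exp (-(β * W.card))) := by
        rw [← ENNReal.ofReal_pow (Real.exp_pos _).le, ← Real.exp_nat_mul]
        congr 2; ring
    _ ≤ ENNReal.ofReal (1 / (N * (N + 1))) := by
        apply ENNReal.ofReal_le_ofReal
        have h2 : Real.exp (-(β * W.card)) ≤ Real.exp (-(2 * Real.log (N + 1))) :=
          Real.exp_le_exp.2 (by linarith)
        refine h2.trans ?_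
        rw [Real.exp_neg, one_div]
        apply inv_anti₀ (by positivity)
        have h3 : Real.exp (2 * Real.log (N + 1)) = (N + 1) ^ 2 := by
          rw [mul_comm, ← Real.rpow_def_of_pos (by positivity)]
          norm_cast
        rw [h3]
        nlinarith

/-- the deterministic part of the function -/
noncomputable def G3 (n : ℕ) : ℝ := (Q n : ℝ) / Real.log n ^ 2 + 90 / Real.log (Real.log n)

/-- the target sets -/
noncomputable def T3 (n : ℕ) : Set 𝕋 := Metric.closedBall 0 (1 / (40 * Real.log n ^ 2))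

lemma log_gt_one {x : ℝ} (h : 400 ≤ Real.log x) (hx : 0 ≤ x) : 1 < x := by
  by_contra hcon
  push Not at hcon
  have := Real.log_nonpos hx hcon
  linarith

lemma G3_le {n : ℕ} (hn : 1 ≤ n) (hA : Al n) (h : 400 ≤ Real.log (Real.log n)) : G3 n ≤ 1 / 4 := by
  have hl0 : 0 ≤ Real.log n := Real.log_nonneg (by exact_mod_cast hn)
  have h1 := log_gt_one h hl0
  unfold G3
  unfold Al at hA
  set x := Real.log n
  set y := Real.log x
  have h2 : (Q n : ℝ) / x ^ 2 ≤ 9 / y ^ 2 := by
    rw [div_le_div_iff₀ (by positivity) (by positivity)]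
    exact hA
  have h3 : 9 / y ^ 2 ≤ 9 / 400 ^ 2 := by
    apply div_le_div_of_nonneg_left (by norm_num) (by norm_num)
    exact pow_le_pow_left₀ (by norm_num) h 2
  have h4 : 90 / y ≤ 90 / 400 := div_le_div_of_nonneg_left (by norm_num) (by norm_num) h
  norm_num at h3 h4
  linarith

lemma G3_nonneg {n : ℕ} (h : 400 ≤ Real.log (Real.log n)) : 0 ≤ G3 n := by
  unfold G3
  have : 0 ≤ Real.log (Real.log n) := by linarith
  positivity

/-- there is no progression of length three -/
lemma kill3 (θ : ℕ → 𝕋) {a b c : ℕ} (h : GP3 a b c)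
    (ha : 400 ≤ Real.log (Real.log a)) (hb : 400 ≤ Real.log (Real.log b))
    (hc : 400 ≤ Real.log (Real.log c)) (hAa : Al a) (hAb : Al b) (hAc : Al c)
    (fa : ((G3 a : ℝ) : 𝕋) + F θ a ∈ T3 a) (fb : ((G3 b : ℝ) : 𝕋) + F θ b ∈ T3 b)
    (fc : ((G3 c : ℝ) : 𝕋) + F θ c ∈ T3 c) : False := by
  have hla0 : 0 ≤ Real.log a := Real.log_nonneg (by exact_mod_cast h.ha)
  have hlb0 : 0 ≤ Real.log b := Real.log_nonneg (by exact_mod_cast h.hb)
  have hlc0 : 0 ≤ Real.log c := Real.log_nonneg (by exact_mod_cast h.hc)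
  have hla := log_gt_one ha hla0
  have hlab : Real.log a < Real.log b := by
    apply Real.log_lt_log
    · exact_mod_cast h.ha
    · exact_mod_cast h.lt
  have hlbc : Real.log b < Real.log c := by
    apply Real.log_lt_log
    · exact_mod_cast h.hb
    · exact_mod_cast h.lt'
  set Δ := G3 a - 2 * G3 b + G3 c with hΔ
  have hQ : ∀ m : ℕ, m.primeFactors ⊆ b.primeFactors →
      (Q m : ℝ) = ∑ p ∈ b.primeFactors, (m.factorization p : ℝ) ^ 2 := by
    intro m hm
    rw [Q_eq_of_subset hm]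
    push_cast; rfl
  have hQa := hQ a h.sub_a
  have hQb := hQ b (Finset.Subset.refl _)
  have hQc := hQ c h.sub_c
  have ha2 : 2 ≤ a := by
    by_contra hcon
    have : a = 1 := by have := h.ha; omega
    rw [this] at hla
    simp at hla
    linarith
  have hlow : 1 / (8 * Real.log a ^ 2) ≤ Δ := by
    have h1 := defect_lower b.primeFactors (fun p => (a.factorization p : ℝ))
      (fun p => (b.factorization p : ℝ)) (fun p => (c.factorization p : ℝ))
      (Real.log a) (Real.log c) (Real.log b) hla (hlab.trans hlbc) h.log_eq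
      (by
        intro p _
        have := h.fac p
        exact_mod_cast this)
      (by rw [← hQb]; exact hAb)
      (by
        rw [← hQa]
        exact_mod_cast Q_pos ha2)
      h.sum_sq_ge
    rw [← hQa, ← hQb, ← hQc] at h1
    refine h1.trans (le_of_eq ?_)
    rw [hΔ]
    unfold G3
    ring
  have hup : Δ ≤ 1 / 2 := by
    have h1 := G3_le h.ha hAa ha
    have h2 := G3_le h.hc hAc hc
    have h3 := G3_nonneg hb
    rw [hΔ]; linarith
  have hΔ0 : 0 < Δ := lt_of_lt_of_le (by positivity) hlow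
  -- the norm on the circle
  have hn1 : ‖(Δ : 𝕋)‖ = Δ := by
    rw [(AddCircle.norm_coe_eq_abs_iff 1 one_ne_zero).2 (by rw [abs_of_pos hΔ0]; simpa using hup),
      abs_of_pos hΔ0]
  have hF := h.F_eq θ
  have heq : (Δ : 𝕋) = (((G3 a : ℝ) : 𝕋) + F θ a) - 2 • (((G3 b : ℝ) : 𝕋) + F θ b)
      + (((G3 c : ℝ) : 𝕋) + F θ c) := by
    have e1 : (Δ : 𝕋) = ((G3 a : ℝ) : 𝕋) - 2 • ((G3 b : ℝ) : 𝕋) + ((G3 c : ℝ) : 𝕋) := by
      rw [hΔ, two_mul, two_nsmul]
      push_cast
      rfl
    have e2 : (((G3 a : ℝ) : 𝕋) + F θ a) - 2 • (((G3 b : ℝ) : 𝕋) + F θ b)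
      + (((G3 c : ℝ) : 𝕋) + F θ c) = (((G3 a : ℝ) : 𝕋) - 2 • ((G3 b : ℝ) : 𝕋) + ((G3 c : ℝ) : 𝕋))
        + (F θ a - 2 • F θ b + F θ c) := by
      rw [smul_add]; abel
    rw [e2, hF, add_zero, e1]
  unfold T3 at fa fb fc
  rw [mem_closedBall_zero_iff] at fa fb fc
  have hmono : ∀ x y : ℝ, 0 < x → x ≤ y → 1 / (40 * y ^ 2) ≤ 1 / (40 * x ^ 2) := by
    intro x y hx hxy
    apply one_div_le_one_div_of_le (by positivity)
    have := pow_le_pow_left₀ hx.le hxy 2
    linarith
  have hla0' : 0 < Real.log a := by linarith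
  have k1 := hmono _ _ hla0' hlab.le
  have k2 := hmono _ _ hla0' (hlab.trans hlbc).le
  have hbd : ‖(Δ : 𝕋)‖ ≤ 4 * (1 / (40 * Real.log a ^ 2)) := by
    rw [heq]
    have n1 := norm_add_le ((((G3 a : ℝ) : 𝕋) + F θ a) - 2 • (((G3 b : ℝ) : 𝕋) + F θ b))
      (((G3 c : ℝ) : 𝕋) + F θ c)
    have n2 := norm_sub_le (((G3 a : ℝ) : 𝕋) + F θ a) (2 • (((G3 b : ℝ) : 𝕋) + F θ b))
    have n3 : ‖2 • (((G3 b : ℝ) : 𝕋) + F θ b)‖ ≤ 2 * ‖((G3 b : ℝ) : 𝕋) + F θ b‖ := by
      rw [two_nsmul]
      have := norm_add_le (((G3 b : ℝ) : 𝕋) + F θ b) (((G3 b : ℝ) : 𝕋) + F θ b)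
      linarith
    linarith
  rw [hn1] at hbd
  have h40 : 4 * (1 / (40 * Real.log a ^ 2)) = 1 / (10 * Real.log a ^ 2) := by
    field_simp; norm_num
  rw [h40] at hbd
  have h8 : 1 / (10 * Real.log a ^ 2) < 1 / (8 * Real.log a ^ 2) := by
    apply one_div_lt_one_div_of_lt (by positivity)
    have : 0 < Real.log a ^ 2 := by positivity
    linarith
  linarith

/-- block length -/
noncomputable def h3 (N : ℕ) : ℕ := ⌈1000 * Real.log N ^ 3⌉₊

lemma h3_facts {N : ℕ} (hN : 640000 ≤ Real.log N) :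
    1000 * Real.log N ^ 3 ≤ h3 N ∧ (h3 N : ℝ) ≤ 1000 * Real.log N ^ 3 + 1 ∧ 100 ≤ h3 N ∧
      100 * Real.log (h3 N) ≤ Real.log N ∧ h3 N ≤ N ∧ 2 ≤ N := by
  set y := Real.log N with hy
  have hy0 : 0 < y := by linarith
  have h1 : 1000 * y ^ 3 ≤ h3 N := Nat.le_ceil _
  have h2 : (h3 N : ℝ) ≤ 1000 * y ^ 3 + 1 := (Nat.ceil_lt_add_one (by positivity)).le
  have hy3 : (1 : ℝ) ≤ y ^ 3 := one_le_pow₀ (by linarith)
  have h100 : (100 : ℝ) ≤ h3 N := by linarith
  have hpos : (0 : ℝ) < h3 N := by linarith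
  have hlog : 100 * Real.log (h3 N) ≤ y := by
    have h3' : (h3 N : ℝ) ≤ y ^ 4 := by
      have : y ^ 4 = y * y ^ 3 := by ring
      rw [this]
      nlinarith
    have h4 := Real.log_le_log hpos h3'
    rw [Real.log_pow] at h4
    have h5 : Real.log y ≤ 2 * Real.sqrt y := by
      have h6 : Real.log (Real.sqrt y) = Real.log y / 2 := Real.log_sqrt hy0.le
      have h7 := Real.log_le_sub_one_of_pos (Real.sqrt_pos.2 hy0)
      linarith
    have h8 : 800 ≤ Real.sqrt y := by
      apply Real.le_sqrt_of_sq_le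
      norm_num
      exact hN
    have h9 : Real.sqrt y * Real.sqrt y = y := Real.mul_self_sqrt hy0.le
    push_cast at h4
    nlinarith
  have hN0 : 0 < N := by
    rcases Nat.eq_zero_or_pos N with h | h
    · rw [h] at hy; simp at hy; linarith
    · exact h
  have hN0' : (0 : ℝ) < N := by exact_mod_cast hN0
  refine ⟨h1, h2, by exact_mod_cast h100, hlog, ?_, ?_⟩
  · have h10 : Real.log (h3 N) ≤ Real.log N := by
      have : 0 ≤ Real.log (h3 N) := Real.log_nonneg (by linarith)
      linarith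
    have h11 := (Real.log_le_log_iff hpos hN0').1 h10
    exact_mod_cast h11
  · by_contra hcon
    have : N = 1 := by omega
    rw [this] at hy
    simp at hy
    linarith

lemma exp400 : (640000 : ℝ) ≤ Real.exp 400 := by
  have h1 : (41 : ℝ) ≤ Real.exp 40 := by
    have := Real.add_one_le_exp (40 : ℝ)
    linarith
  have h2 : Real.exp 400 = Real.exp 40 ^ 10 := by
    rw [← Real.exp_nat_mul]; norm_num
  rw [h2]
  calc (640000 : ℝ) ≤ 41 ^ 10 := by norm_num
    _ ≤ Real.exp 40 ^ 10 := pow_le_pow_left₀ (by norm_num) h1 10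

/-- the main theorem on three terms -/
theorem three : ∃ (a : ℕ → ℕ) (C : ℝ), StrictMono a ∧ (∀ i, 0 < a i) ∧
    (∀ i, (a (i + 1) : ℝ) - a i ≤ C * Real.log (a i) ^ 3) ∧
    ∀ x r : ℝ, x ≠ 0 → r ≠ 0 → r ≠ 1 → r ≠ -1 → ¬ ∀ j < 3, ∃ i, (a i : ℝ) = x * r ^ j := by
  classical
  set N₁ : ℕ := ⌈Real.exp (Real.exp 400)⌉₊ with hN₁
  have hbase : ∀ n : ℕ, N₁ ≤ n → Real.exp 400 ≤ Real.log n ∧ 640000 ≤ Real.log n ∧
      400 ≤ Real.log (Real.log n) ∧ 2 ≤ n := by
    intro n hn
    have h1 : Real.exp (Real.exp 400) ≤ n := by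
      have h2 : Real.exp (Real.exp 400) ≤ N₁ := Nat.le_ceil _
      have h3 : (N₁ : ℝ) ≤ n := by exact_mod_cast hn
      linarith
    have h2 : Real.exp 400 ≤ Real.log n := by
      have := Real.log_le_log (Real.exp_pos _) h1
      rwa [Real.log_exp] at this
    have h3 : 400 ≤ Real.log (Real.log n) := by
      have := Real.log_le_log (Real.exp_pos _) h2
      rwa [Real.log_exp] at this
    have h4 : 640000 ≤ Real.log n := exp400.trans h2
    exact ⟨h2, h4, h3, (h3_facts h4).2.2.2.2.2⟩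
  have hN₁2 : 2 ≤ N₁ := (hbase N₁ le_rfl).2.2.2
  obtain ⟨θ, hθ⟩ := exists_theta (fun n => ((G3 n : ℝ) : 𝕋)) T3
    (fun n => Metric.isClosed_closedBall.measurableSet)
    (fun N => W3 N (h3 N)) N₁ hN₁2
    (fun N _ => exists_private N (h3 N) _ (Finset.filter_subset _ _))
    (by
      intro N hN
      obtain ⟨-, hl, -, -⟩ := hbase N hN
      obtain ⟨e1, e2, e3, e4, e5, e6⟩ := h3_facts hl
      set y := Real.log N with hy
      have hN0 : (0 : ℝ) < N := by
        have : 0 < N := by omega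
        exact_mod_cast this
      have hl2 : Real.log (2 * N) ≤ y + 1 := by
        rw [Real.log_mul (by norm_num) hN0.ne']
        have := Real.log_le_sub_one_of_pos (show (0 : ℝ) < 2 by norm_num)
        linarith
      -- the bound for small primes
      set P : ℕ := ⌈Real.sqrt (Real.log (2 * N))⌉₊ with hP
      have hP1 : Real.log (2 * N) ≤ (P : ℝ) ^ 2 := by
        have h5 : Real.sqrt (Real.log (2 * N)) ≤ P := Nat.le_ceil _
        exact (Real.sqrt_le_left (Nat.cast_nonneg _)).1 h5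
      have hP2 : (P : ℝ) ≤ h3 N / 20 := by
        have h5 : (P : ℝ) < Real.sqrt (Real.log (2 * N)) + 1 :=
          Nat.ceil_lt_add_one (Real.sqrt_nonneg _)
        have h6 : Real.sqrt (Real.log (2 * N)) ≤ y := by
          apply Real.sqrt_le_iff.2
          constructor
          · linarith
          · nlinarith
        have h7 : y ≤ y ^ 3 := by
          have h8 : (1 : ℝ) ≤ y ^ 2 := one_le_pow₀ (by linarith)
          nlinarith
        nlinarith
      have hcard := W3_card N (h3 N) P e6 e3 e5 e4 (by linarith) hP1 hP2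
      apply prod_bound _ _ (1 / (20 * (y + 1) ^ 2)) (by positivity) _ N (by omega)
      · have h5 : Real.log (N + 1) ≤ y + 1 := by
          have : Real.log (N + 1) ≤ Real.log (2 * N) := by
            apply Real.log_le_log (by positivity)
            have : (2 : ℝ) ≤ N := by exact_mod_cast e6
            linarith
          linarith
        have h6 : 1 / (20 * (y + 1) ^ 2) * (h3 N / 10) ≤
            1 / (20 * (y + 1) ^ 2) * ((W3 N (h3 N)).card : ℝ) :=
          mul_le_mul_of_nonneg_left hcard (by positivity)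
        refine le_trans ?_ h6
        have h7 : 1 / (20 * (y + 1) ^ 2) * ((h3 N : ℝ) / 10) = h3 N / (200 * (y + 1) ^ 2) := by
          field_simp; norm_num
        rw [h7, le_div_iff₀ (by positivity)]
        have h8 : 2 * Real.log (N + 1) * (200 * (y + 1) ^ 2) ≤ 400 * (y + 1) ^ 3 := by
          have : 2 * (y + 1) * (200 * (y + 1) ^ 2) = 400 * (y + 1) ^ 3 := by ring
          rw [← this]
          apply mul_le_mul_of_nonneg_right _ (by positivity)
          linarith
        refine h8.trans (le_trans ?_ e1)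
        have h9 : (y + 1) ^ 3 ≤ 2 * y ^ 3 := by
          have h10 : y + 1 ≤ 11 / 10 * y := by linarith
          have h11 : (y + 1) ^ 3 ≤ (11 / 10 * y) ^ 3 := pow_le_pow_left₀ (by linarith) h10 3
          have h12 : (11 / 10 * y) ^ 3 = 1331 / 1000 * y ^ 3 := by ring
          have h13 : 0 ≤ y ^ 3 := by
            have : 0 ≤ y := by linarith
            positivity
          linarith
        have h13 : 0 ≤ y ^ 3 := by
          have : 0 ≤ y := by linarith
          positivity
        linarith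
      · intro n hn
        have hn1 := (Finset.mem_filter.1 (Finset.mem_filter.1 hn).1).1
        rw [Finset.mem_Ico] at hn1
        have h5 : Real.log n ≤ y + 1 := by
          refine le_trans ?_ hl2
          apply Real.log_le_log
          · have : 0 < n := by omega
            exact_mod_cast this
          · have : n ≤ 2 * N := by omega
            exact_mod_cast this
        have h6 : 640000 ≤ Real.log n := (hbase n (hN.trans hn1.1)).2.1
        unfold T3
        rw [AddCircle.volume_closedBall]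
        apply ENNReal.ofReal_le_ofReal
        apply le_min
        · rw [div_le_one (by positivity)]
          nlinarith
        · have h7 : 2 * (1 / (40 * Real.log n ^ 2)) = 1 / (20 * Real.log n ^ 2) := by
            field_simp; norm_num
          rw [h7]
          apply one_div_le_one_div_of_le (by positivity)
          have := pow_le_pow_left₀ (by linarith) h5 2
          linarith)
  -- the set
  set A : Set ℕ := {n | N₁ ≤ n ∧ Al n ∧ ((G3 n : ℝ) : 𝕋) + F θ n ∈ T3 n} with hA
  obtain ⟨a, ha1, ha2, ha3, ha4⟩ := seq_exists A N₁ (fun n => h3 (n + 1)) (by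
    intro n hn
    obtain ⟨x, hx, hx2⟩ := hθ (n + 1) (by omega)
    have hx1 := (Finset.mem_filter.1 (Finset.mem_filter.1 hx).1).1
    have hxA := (Finset.mem_filter.1 hx).2
    rw [Finset.mem_Ico] at hx1
    exact ⟨x, ⟨by omega, hxA, hx2⟩, by omega, by omega⟩)
  refine ⟨a, 8001, ha1, fun i => by have := ha3 i; omega, ?_, ?_⟩
  · intro i
    obtain ⟨-, hl, -, h2⟩ := hbase (a i) (ha3 i).le
    obtain ⟨-, hl', -, -⟩ := hbase (a i + 1) (by have := ha3 i; omega)
    obtain ⟨-, e2, -⟩ := h3_facts hl'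
    have h4 : (a (i + 1) : ℝ) ≤ a i + h3 (a i + 1) := by exact_mod_cast ha4 i
    have h5 : Real.log ((a i + 1 : ℕ) : ℝ) ≤ 2 * Real.log (a i) := by
      have h6 : Real.log ((a i + 1 : ℕ) : ℝ) ≤ Real.log ((a i : ℝ) ^ 2) := by
        apply Real.log_le_log
        · positivity
        · have h7 : a i + 1 ≤ a i ^ 2 := by nlinarith
          exact_mod_cast h7
      rw [Real.log_pow] at h6
      push_cast at h6 ⊢
      exact h6
    have h6 : Real.log ((a i + 1 : ℕ) : ℝ) ^ 3 ≤ (2 * Real.log (a i)) ^ 3 :=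
      pow_le_pow_left₀ (by linarith) h5 3
    have h7 : (2 * Real.log (a i)) ^ 3 = 8 * Real.log (a i) ^ 3 := by ring
    have h8 : (1 : ℝ) ≤ Real.log (a i) ^ 3 := one_le_pow₀ (by linarith)
    linarith
  · intro x r _ _ hr1 _ hcon
    obtain ⟨i0, e0⟩ := hcon 0 (by norm_num)
    obtain ⟨i1, e1⟩ := hcon 1 (by norm_num)
    obtain ⟨i2, e2⟩ := hcon 2 (by norm_num)
    rw [pow_zero, mul_one] at e0
    rw [pow_one] at e1
    have hp : ∀ i, 0 < a i := fun i => by have := ha3 i; omega
    have hk : ∀ i, 400 ≤ Real.log (Real.log (a i)) := fun i => (hbase (a i) (ha3 i).le).2.2.1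
    rcases gp3_of_real (hp i0) (hp i1) (hp i2) x r hr1 e0 e1 e2 with h | h
    · exact kill3 θ h (hk i0) (hk i1) (hk i2) (ha2 i0).2.1 (ha2 i1).2.1 (ha2 i2).2.1
        (ha2 i0).2.2 (ha2 i1).2.2 (ha2 i2).2.2
    · exact kill3 θ h (hk i2) (hk i1) (hk i0) (ha2 i2).2.1 (ha2 i1).2.1 (ha2 i0).2.1
        (ha2 i2).2.2 (ha2 i1).2.2 (ha2 i0).2.2

end Pool.SG69
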