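import Pool.Agent.Work.MP_b928c0_sg_helper69.Kill5
import Pool.Agent.Work.MP_b928c0_sg_helper69.Three

/-!
# Sequences without geometric progressions of length `2 ^ m + 1`
-/

set_option autoImplicit false

open Finset MeasureTheory

namespace Pool.SG69

/-- the digit system: `2 ^ b` digits of `2 ^ (b * (m - 1))` bits at place `b` -/
lemma exists_dig (m : ℕ) (hm : 2 ≤ m) : ∃ (X : Dig) (c : ℕ), (∀ b, Good 2 (2 ^ m + 1) (X.S b)) ∧
    (∀ b, X.N b = 2 ^ ((2 ^ b) ^ m + 5)) ∧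
    (∀ b, X.N b ≤ (X.S b).card * 2 ^ (c * 2 ^ b + 5)) := by
  obtain ⟨e, rfl⟩ : ∃ e, m = e + 1 := ⟨m - 1, by omega⟩
  obtain ⟨c, hc⟩ := rankin e 2 (2 ^ (e + 1) + 1) (by rw [pow_succ]; omega)
  have h1 : ∀ b : ℕ, ∃ S : Finset ℕ, (∀ s ∈ S, s < 2 ^ ((2 ^ b) ^ (e + 1))) ∧
      Good 2 (2 ^ (e + 1) + 1) S ∧ 2 ^ ((2 ^ b) ^ (e + 1)) ≤ S.card * 2 ^ (c * 2 ^ b) :=
    fun b => hc (2 ^ b) Nat.one_le_two_pow
  choose S hS1 hS2 hS3 using h1
  refine ⟨⟨S, fun b => 2 ^ ((2 ^ b) ^ (e + 1) + 5), ?_, ?_⟩, c, hS2, fun b => rfl, ?_⟩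
  · intro b s hs
    have := hS1 b s hs
    show 32 * (s + 1) ≤ 2 ^ ((2 ^ b) ^ (e + 1) + 5)
    rw [pow_add]
    omega
  · intro b
    show 32 ≤ 2 ^ ((2 ^ b) ^ (e + 1) + 5)
    rw [pow_add]
    have : 1 ≤ 2 ^ ((2 ^ b) ^ (e + 1)) := Nat.one_le_two_pow
    omega
  · intro b
    show 2 ^ ((2 ^ b) ^ (e + 1) + 5) ≤ (S b).card * 2 ^ (c * 2 ^ b + 5)
    rw [pow_add 2 ((2 ^ b) ^ (e + 1)) 5, pow_add 2 (c * 2 ^ b) 5, ← mul_assoc]
    exact Nat.mul_le_mul_right _ (hS3 b)

lemma sum_two_pow (κ : ℕ) : ∑ i ∈ range κ, 2 ^ i = 2 ^ κ - 1 := by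
  have := Nat.geomSum_eq (le_refl 2) κ
  simpa using this

/-- density of the target sets -/
lemma dens_ge (X : Dig) (c : ℕ) (h : ∀ b, X.N b ≤ (X.S b).card * 2 ^ (c * 2 ^ b + 5)) (κ : ℕ) :
    ((2 : ℝ) ^ ((c + 5) * 2 ^ κ))⁻¹ ≤ X.dens κ 0 := by
  have h1 : ∀ κ : ℕ, ((2 : ℝ) ^ (c * (2 ^ κ - 1) + 5 * κ))⁻¹
      ≤ ∏ i ∈ range κ, ((X.S (0 + i)).card : ℝ) / X.N (0 + i) := by
    intro κ
    induction κ with
    | zero => simp
    | succ κ ih =>
      rw [Finset.prod_range_succ]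
      have h2 : ((2 : ℝ) ^ (c * 2 ^ κ + 5))⁻¹ ≤ ((X.S (0 + κ)).card : ℝ) / X.N (0 + κ) := by
        rw [Nat.zero_add]
        have hN : (0 : ℝ) < X.N κ := by
          have := X.Npos κ; linarith
        rw [inv_eq_one_div, div_le_div_iff₀ (by positivity) hN, one_mul]
        exact_mod_cast h κ
      have h3 : c * (2 ^ (κ + 1) - 1) + 5 * (κ + 1)
          = (c * (2 ^ κ - 1) + 5 * κ) + (c * 2 ^ κ + 5) := by
        have h4 : 1 ≤ 2 ^ κ := Nat.one_le_two_pow
        have h5 : 2 ^ (κ + 1) - 1 = (2 ^ κ - 1) + 2 ^ κ := by rw [pow_succ]; omega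
        rw [h5]; ring
      rw [h3, pow_add, mul_inv]
      exact mul_le_mul ih h2 (by positivity) (Finset.prod_nonneg fun i _ => by positivity)
  unfold Dig.dens
  have h2 : ((2 : ℝ) ^ ((c + 5) * 2 ^ κ))⁻¹ ≤ 1 / 32 * ((2 : ℝ) ^ (c * (2 ^ κ - 1) + 5 * κ))⁻¹ := by
    have h3 : 1 / 32 * ((2 : ℝ) ^ (c * (2 ^ κ - 1) + 5 * κ))⁻¹
        = ((2 : ℝ) ^ (5 + (c * (2 ^ κ - 1) + 5 * κ)))⁻¹ := by
      rw [pow_add (2 : ℝ) 5, mul_inv]; norm_num
    rw [h3]
    apply inv_anti₀ (by positivity)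
    apply pow_le_pow_right₀ (by norm_num)
    have h4 : κ < 2 ^ κ := Nat.lt_two_pow_self
    have h5 : c * (2 ^ κ - 1) ≤ c * 2 ^ κ := Nat.mul_le_mul_left _ (Nat.sub_le _ _)
    have h6 : (c + 5) * 2 ^ κ = c * 2 ^ κ + 5 * 2 ^ κ := by ring
    omega
  exact h2.trans (mul_le_mul_of_nonneg_left (h1 κ) (by norm_num))

/-- level of an integer -/
def lv (n : ℕ) : ℕ := Nat.log 2 (Nat.log 2 n) + 1

/-- number of digits used at an integer -/
def kp (m n : ℕ) : ℕ := Nat.clog (2 ^ m) (2 * lv n) + 1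

lemma kp_mono (m : ℕ) : Monotone (kp m) := by
  intro a b hab
  unfold kp lv
  have h1 : Nat.log 2 a ≤ Nat.log 2 b := Nat.log_mono_right hab
  have h2 : Nat.log 2 (Nat.log 2 a) ≤ Nat.log 2 (Nat.log 2 b) := Nat.log_mono_right h1
  have h3 : Nat.clog (2 ^ m) (2 * (Nat.log 2 (Nat.log 2 a) + 1))
      ≤ Nat.clog (2 ^ m) (2 * (Nat.log 2 (Nat.log 2 b) + 1)) :=
    Nat.clog_mono_right _ (by omega)
  omega

lemma Q_le_pow {n : ℕ} (hn : n ≠ 0) : Q n ≤ 2 ^ (2 * lv n) := by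
  have h1 := Q_le hn
  have hl : 0 < Real.log 2 := Real.log_pos (by norm_num)
  have h2 : Real.log n ≤ (2 ^ lv n : ℕ) * Real.log 2 := by
    have h3 : n < 2 ^ (Nat.log 2 n + 1) := Nat.lt_pow_succ_log_self (by norm_num) n
    have h4 : Nat.log 2 n < 2 ^ lv n := Nat.lt_pow_succ_log_self (by norm_num) _
    have h5 : n ≤ 2 ^ (2 ^ lv n) := h3.le.trans (Nat.pow_le_pow_right (by norm_num) h4)
    have h6 : (n : ℝ) ≤ (2 : ℝ) ^ (2 ^ lv n) := by exact_mod_cast h5
    have h7 := Real.log_le_log (by exact_mod_cast Nat.pos_of_ne_zero hn) h6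
    rwa [Real.log_pow] at h7
  have h0 : 0 ≤ Real.log n := Real.log_nonneg (by exact_mod_cast Nat.one_le_iff_ne_zero.2 hn)
  have h3 := pow_le_pow_left₀ h0 h2 2
  have h4 : (Q n : ℝ) * Real.log 2 ^ 2 ≤ ((2 ^ lv n : ℕ) : ℝ) ^ 2 * Real.log 2 ^ 2 := by
    calc (Q n : ℝ) * Real.log 2 ^ 2 ≤ Real.log n ^ 2 := h1
      _ ≤ ((2 ^ lv n : ℕ) * Real.log 2) ^ 2 := h3
      _ = _ := by ring
  have h5 := le_of_mul_le_mul_right h4 (by positivity)
  have h6 : (2 : ℕ) ^ (2 * lv n) = (2 ^ lv n) ^ 2 := by rw [← pow_mul]; congr 1; ring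
  rw [h6]
  exact_mod_cast h5

lemma PN_ge (X : Dig) (m : ℕ) (hm : 2 ≤ m) (hX : ∀ b, X.N b = 2 ^ ((2 ^ b) ^ m + 5)) (n : ℕ) :
    2 ^ (2 * lv n) ≤ X.PN 0 (kp m n) := by
  set t := Nat.clog (2 ^ m) (2 * lv n) with ht
  have h1 : 2 * lv n ≤ (2 ^ m) ^ t :=
    Nat.le_pow_clog (Nat.one_lt_two_pow (by omega)) _
  have h2 : X.N t ≤ X.PN 0 (kp m n) := by
    unfold Dig.PN kp
    rw [← ht, Finset.prod_range_succ, Nat.zero_add]
    apply Nat.le_mul_of_pos_left
    exact Finset.prod_pos fun i _ => lt_of_lt_of_le (by norm_num) (X.pos _)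
  refine le_trans ?_ h2
  rw [hX]
  apply Nat.pow_le_pow_right (by norm_num)
  have h3 : (2 ^ t) ^ m = (2 ^ m) ^ t := by rw [← pow_mul, ← pow_mul, mul_comm]
  omega

/-- upper bound for the number of digits -/
lemma kp_le (m N : ℕ) (hm : 2 ≤ m) (hL : 4 ≤ Real.log (Real.log N)) (hN : 2 ≤ N) :
    ((2 : ℝ) ^ kp m (2 * N)) ≤ 16 * Real.log (Real.log N) ^ (1 / (m : ℝ)) := by
  set L := Real.log (Real.log N) with hLd
  have hN0 : (2 : ℝ) ≤ N := by exact_mod_cast hN
  have hy0 : 0 ≤ Real.log N := Real.log_nonneg (by linarith)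
  have hy : 4 ≤ Real.log N := by
    by_contra hcon
    push Not at hcon
    have h1 : L ≤ Real.log 4 := by
      rcases eq_or_lt_of_le hy0 with h | h
      · rw [hLd, ← h, Real.log_zero]; exact Real.log_nonneg (by norm_num)
      · exact Real.log_le_log h hcon.le
    have h2 := Real.log_le_sub_one_of_pos (show (0 : ℝ) < 4 by norm_num)
    linarith
  have hl2 : 0 < Real.log 2 := Real.log_pos (by norm_num)
  have hl2' : 0.6931 < Real.log 2 := by have := Real.log_two_gt_d9; linarith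
  -- Nat.log 2 (2N) ≤ 2 log N
  have h1 : ((Nat.log 2 (2 * N) : ℕ) : ℝ) * Real.log 2 ≤ Real.log N + Real.log 2 := by
    have h2 : 2 ^ Nat.log 2 (2 * N) ≤ 2 * N := Nat.pow_log_le_self 2 (by omega)
    have h3 : (2 : ℝ) ^ Nat.log 2 (2 * N) ≤ 2 * N := by exact_mod_cast h2
    have h4 := Real.log_le_log (by positivity) h3
    rw [Real.log_pow, Real.log_mul (by norm_num) (by positivity)] at h4
    linarith
  have h2 : ((Nat.log 2 (2 * N) : ℕ) : ℝ) ≤ 2 * Real.log N := by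
    by_contra hcon
    push Not at hcon
    have h3 : 2 * Real.log N * Real.log 2 < ((Nat.log 2 (2 * N) : ℕ) : ℝ) * Real.log 2 :=
      mul_lt_mul_of_pos_right hcon hl2
    have h4 : Real.log 2 < 0.6932 := by have := Real.log_two_lt_d9; linarith
    nlinarith
  have h0 : 1 ≤ Nat.log 2 (2 * N) := by
    apply Nat.le_log_of_pow_le (by norm_num)
    omega
  have h3 : ((Nat.log 2 (Nat.log 2 (2 * N)) : ℕ) : ℝ) * Real.log 2 ≤ Real.log 2 + L := by
    have h4 : 2 ^ Nat.log 2 (Nat.log 2 (2 * N)) ≤ Nat.log 2 (2 * N) :=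
      Nat.pow_log_le_self 2 (by omega)
    have h5 : (2 : ℝ) ^ Nat.log 2 (Nat.log 2 (2 * N)) ≤ 2 * Real.log N := by
      refine le_trans ?_ h2
      exact_mod_cast h4
    have h6 := Real.log_le_log (by positivity) h5
    rw [Real.log_pow, Real.log_mul (by norm_num) (by linarith)] at h6
    linarith
  have h4 : (lv (2 * N) : ℝ) ≤ 2 * L := by
    unfold lv
    push_cast
    by_contra hcon
    push Not at hcon
    have h5 : (2 * L - 1) * Real.log 2 < ((Nat.log 2 (Nat.log 2 (2 * N)) : ℕ) : ℝ) * Real.log 2 :=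
      mul_lt_mul_of_pos_right (by linarith) hl2
    nlinarith
  have h5 : 1 < 2 * lv (2 * N) := by unfold lv; omega
  set t := Nat.clog (2 ^ m) (2 * lv (2 * N)) with ht
  have hb : 1 < 2 ^ m := Nat.one_lt_two_pow (by omega)
  have ht0 : 0 < t := Nat.clog_pos hb h5
  have h6 : (2 ^ m) ^ (t - 1) < 2 * lv (2 * N) := Nat.pow_pred_clog_lt_self hb h5
  have h7 : ((2 : ℝ) ^ (t - 1)) ^ m ≤ 4 * L := by
    have h8 : (((2 ^ m) ^ (t - 1) : ℕ) : ℝ) ≤ ((2 * lv (2 * N) : ℕ) : ℝ) := by exact_mod_cast h6.le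
    push_cast at h8
    have h9 : ((2 : ℝ) ^ (t - 1)) ^ m = (2 ^ m) ^ (t - 1) := by
      rw [← pow_mul, ← pow_mul, mul_comm]
    rw [h9]
    linarith
  have hm0 : (0 : ℝ) < m := by
    have : 0 < m := by omega
    exact_mod_cast this
  have hLpos : 0 < L := by linarith
  have h8 : (2 : ℝ) ^ (t - 1) ≤ (4 * L) ^ (1 / (m : ℝ)) := by
    have h9 : (2 : ℝ) ^ (t - 1) = (((2 : ℝ) ^ (t - 1)) ^ m) ^ (1 / (m : ℝ)) := by
      rw [one_div, Real.pow_rpow_inv_natCast (by positivity) (by omega)]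
    rw [h9]
    exact Real.rpow_le_rpow (by positivity) h7 (by positivity)
  have h9 : (4 * L) ^ (1 / (m : ℝ)) ≤ 4 * L ^ (1 / (m : ℝ)) := by
    rw [Real.mul_rpow (by norm_num) hLpos.le]
    apply mul_le_mul_of_nonneg_right _ (by positivity)
    calc (4 : ℝ) ^ (1 / (m : ℝ)) ≤ 4 ^ (1 : ℝ) := by
          apply Real.rpow_le_rpow_of_exponent_le (by norm_num)
          rw [div_le_one hm0]
          have : 1 ≤ m := by omega
          exact_mod_cast this
      _ = 4 := Real.rpow_one 4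
  have h10 : kp m (2 * N) = (t - 1) + 2 := by unfold kp; omega
  rw [h10, pow_add]
  nlinarith

/-- block length -/
noncomputable def hh (m c N : ℕ) : ℕ :=
  ⌈5 * Real.log (N + 1) * 2 ^ ((c + 5) * 2 ^ kp m (2 * N))⌉₊ + 100

lemma hh_facts (m c N : ℕ) (hm : 2 ≤ m) (hL : 400 * (6 + 16 * ((c : ℝ) + 5)) ≤ Real.log (Real.log N))
    (hN : 2 ≤ N) :
    (hh m c N : ℝ) ≤ 111 * Real.log N *
      Real.exp (16 * ((c : ℝ) + 5) * Real.log (Real.log N) ^ (1 / (m : ℝ))) ∧
    100 * Real.log (hh m c N) ≤ Real.log N ∧ hh m c N ≤ N := by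
  set L := Real.log (Real.log N) with hLd
  set C₁ := 16 * ((c : ℝ) + 5) with hC₁
  have hc0 : (0 : ℝ) ≤ c := Nat.cast_nonneg c
  have hC0 : 80 ≤ C₁ := by rw [hC₁]; linarith
  have hL4 : 4 ≤ L := by linarith
  have hL0 : 0 < L := by linarith
  have hN0 : (2 : ℝ) ≤ N := by exact_mod_cast hN
  have hy0 : 0 ≤ Real.log N := Real.log_nonneg (by linarith)
  have hypos : 0 < Real.log N := Real.log_pos (by linarith)
  have hyL : Real.log N = Real.exp L := by rw [hLd, Real.exp_log hypos]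
  have hy1 : 1 ≤ Real.log N := by
    rw [hyL]; exact Real.one_le_exp hL0.le
  have hk := kp_le m N hm hL4 hN
  rw [← hLd] at hk
  set U := L ^ (1 / (m : ℝ)) with hU
  have hm0 : (0 : ℝ) < m := by
    have : 0 < m := by omega
    exact_mod_cast this
  have hU0 : 0 ≤ U := by positivity
  have hUL : U ≤ L := by
    calc U ≤ L ^ (1 : ℝ) := by
          apply Real.rpow_le_rpow_of_exponent_le (by linarith)
          rw [div_le_one hm0]
          have : 1 ≤ m := by omega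
          exact_mod_cast this
      _ = L := Real.rpow_one L
  have h1 : (2 : ℝ) ^ ((c + 5) * 2 ^ kp m (2 * N)) ≤ Real.exp (C₁ * U) := by
    have h2 : (2 : ℝ) ^ ((c + 5) * 2 ^ kp m (2 * N))
        = Real.exp (Real.log 2 * (((c + 5) * 2 ^ kp m (2 * N) : ℕ) : ℝ)) := by
      rw [mul_comm (Real.log 2), Real.exp_nat_mul, Real.exp_log (by norm_num)]
    rw [h2]
    apply Real.exp_le_exp.2
    have h3 : Real.log 2 ≤ 1 := by
      have := Real.log_le_sub_one_of_pos (show (0 : ℝ) < 2 by norm_num)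
      linarith
    have h4 : (((c + 5) * 2 ^ kp m (2 * N) : ℕ) : ℝ) ≤ ((c : ℝ) + 5) * (16 * U) := by
      push_cast
      exact mul_le_mul_of_nonneg_left hk (by positivity)
    have h5 : (0 : ℝ) ≤ (((c + 5) * 2 ^ kp m (2 * N) : ℕ) : ℝ) := Nat.cast_nonneg _
    calc Real.log 2 * (((c + 5) * 2 ^ kp m (2 * N) : ℕ) : ℝ)
        ≤ 1 * (((c + 5) * 2 ^ kp m (2 * N) : ℕ) : ℝ) := mul_le_mul_of_nonneg_right h3 h5
      _ ≤ ((c : ℝ) + 5) * (16 * U) := by rw [one_mul]; exact h4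
      _ = C₁ * U := by rw [hC₁]; ring
  have hlogN1 : Real.log (N + 1) ≤ 2 * Real.log N := by
    have h2 : Real.log (N + 1) ≤ Real.log ((N : ℝ) ^ 2) := by
      apply Real.log_le_log (by positivity)
      nlinarith
    rw [Real.log_pow] at h2
    push_cast at h2
    exact h2
  have hlogN1' : 0 ≤ Real.log ((N : ℝ) + 1) := Real.log_nonneg (by linarith)
  have hE : 1 ≤ Real.exp (C₁ * U) := Real.one_le_exp (by positivity)
  have hbound : (hh m c N : ℝ) ≤ 111 * Real.log N * Real.exp (C₁ * U) := by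
    unfold hh
    have h2 : (⌈5 * Real.log (N + 1) * 2 ^ ((c + 5) * 2 ^ kp m (2 * N))⌉₊ : ℝ)
        ≤ 5 * Real.log (N + 1) * 2 ^ ((c + 5) * 2 ^ kp m (2 * N)) + 1 :=
      (Nat.ceil_lt_add_one (by positivity)).le
    have h3 : 5 * Real.log (N + 1) * 2 ^ ((c + 5) * 2 ^ kp m (2 * N))
        ≤ 10 * Real.log N * Real.exp (C₁ * U) := by
      calc 5 * Real.log (N + 1) * 2 ^ ((c + 5) * 2 ^ kp m (2 * N))
          ≤ (10 * Real.log N) * 2 ^ ((c + 5) * 2 ^ kp m (2 * N)) := by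
            apply mul_le_mul_of_nonneg_right _ (by positivity)
            linarith
        _ ≤ (10 * Real.log N) * Real.exp (C₁ * U) :=
            mul_le_mul_of_nonneg_left h1 (by positivity)
    have h4 : 1 ≤ Real.log N * Real.exp (C₁ * U) := by nlinarith
    push_cast
    nlinarith
  have hpos : (0 : ℝ) < hh m c N := by
    unfold hh; push_cast; positivity
  have hlog : 100 * Real.log (hh m c N) ≤ Real.log N := by
    have h2 := Real.log_le_log hpos hbound
    rw [Real.log_mul (by positivity) (Real.exp_pos _).ne', Real.log_mul (by norm_num) hypos.ne',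
      Real.log_exp, ← hLd] at h2
    have h3 : Real.log 111 ≤ 5 := by
      have h4 : (111 : ℝ) ≤ Real.exp 5 := by
        have h5 : (2.7 : ℝ) ≤ Real.exp 1 := by have := Real.exp_one_gt_d9; linarith
        have h6 : Real.exp 5 = Real.exp 1 ^ 5 := by rw [← Real.exp_nat_mul]; norm_num
        rw [h6]
        calc (111 : ℝ) ≤ 2.7 ^ 5 := by norm_num
          _ ≤ Real.exp 1 ^ 5 := pow_le_pow_left₀ (by norm_num) h5 5
      have := Real.log_le_log (by norm_num) h4
      rwa [Real.log_exp] at this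
    have h4 : C₁ * U ≤ C₁ * L := mul_le_mul_of_nonneg_left hUL (by linarith)
    have h5 : Real.log (hh m c N) ≤ (6 + C₁) * L := by nlinarith
    have h6 : L ^ 2 / 4 ≤ Real.log N := by
      rw [hyL]
      have h7 : Real.exp L = Real.exp (L / 2) ^ 2 := by
        rw [← Real.exp_nat_mul]; congr 1; push_cast; ring
      rw [h7]
      have h8 := Real.add_one_le_exp (L / 2)
      have h9 : L / 2 ≤ Real.exp (L / 2) := by linarith
      have h10 := pow_le_pow_left₀ (by linarith) h9 2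
      calc L ^ 2 / 4 = (L / 2) ^ 2 := by ring
        _ ≤ _ := h10
    have h7 : 100 * ((6 + C₁) * L) ≤ L ^ 2 / 4 := by nlinarith
    linarith
  refine ⟨hbound, hlog, ?_⟩
  have h1 : Real.log (hh m c N) ≤ Real.log N := by
    have h2 : 0 ≤ Real.log (hh m c N) := by
      apply Real.log_nonneg
      unfold hh; push_cast
      have : (0 : ℝ) ≤ (⌈5 * Real.log (N + 1) * 2 ^ ((c + 5) * 2 ^ kp m (2 * N))⌉₊ : ℝ) :=
        Nat.cast_nonneg _
      linarith
    linarith
  have h2 := (Real.log_le_log_iff hpos (by linarith)).1 h1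
  exact_mod_cast h2

/-- geometric progressions with ratio larger than one -/
lemma gp3_gt {a b c : ℕ} (ha : 0 < a) (x r : ℝ) (hr : 1 < r) (h0 : (a : ℝ) = x)
    (h1 : (b : ℝ) = x * r) (h2 : (c : ℝ) = x * r ^ 2) : GP3 a b c := by
  have hx : 0 < x := by rw [← h0]; exact_mod_cast ha
  have h3 : (a : ℝ) * c = b * b := by rw [h0, h1, h2]; ring
  refine ⟨ha, ?_, ?_, by exact_mod_cast h3⟩
  · have : (a : ℝ) < b := by rw [h0, h1]; nlinarith
    exact_mod_cast this
  · have : (b : ℝ) < c := by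
      rw [h1, h2]
      have h4 : x * r ^ 2 = x * r * r := by ring
      rw [h4]
      have h5 : 0 < x * r := by positivity
      nlinarith
    exact_mod_cast this

lemma gp3_lt {a b c : ℕ} (hc : 0 < c) (x r : ℝ) (hr0 : 0 < r) (hr : r < 1) (h0 : (a : ℝ) = x)
    (h1 : (b : ℝ) = x * r) (h2 : (c : ℝ) = x * r ^ 2) : GP3 c b a := by
  apply gp3_gt hc (x * r ^ 2) r⁻¹ (one_lt_inv_iff₀.2 ⟨hr0, hr⟩) h2
  · rw [h1]; field_simp
  · rw [h0]; field_simp

/-- the main theorem on `2 ^ m + 1` terms -/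
theorem five (m : ℕ) (hm : 2 ≤ m) : ∃ (a : ℕ → ℕ) (C : ℝ), StrictMono a ∧ (∀ i, 0 < a i) ∧
    (∀ i, (a (i + 1) : ℝ) - a i ≤
      C * Real.log (a i) * Real.exp (C * Real.log (Real.log (a i)) ^ (1 / (m : ℝ)))) ∧
    ∀ x r : ℝ, x ≠ 0 → r ≠ 0 → r ≠ 1 → r ≠ -1 →
      ¬ ∀ j < 2 ^ m + 1, ∃ i, (a i : ℝ) = x * r ^ j := by
  classical
  obtain ⟨X, c, hXG, hXN, hXc⟩ := exists_dig m hm
  set C₁ := 16 * ((c : ℝ) + 5) with hC₁
  set L₀ := 400 * (6 + C₁) with hL₀
  have hc0 : (0 : ℝ) ≤ c := Nat.cast_nonneg c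
  have hL₀' : 400 ≤ L₀ := by rw [hL₀, hC₁]; linarith
  set N₁ : ℕ := ⌈Real.exp (Real.exp L₀)⌉₊ with hN₁
  have hbase : ∀ n : ℕ, N₁ ≤ n → Real.exp L₀ ≤ Real.log n ∧ L₀ ≤ Real.log (Real.log n) ∧ 2 ≤ n := by
    intro n hn
    have h1 : Real.exp (Real.exp L₀) ≤ n := by
      have h2 : Real.exp (Real.exp L₀) ≤ N₁ := Nat.le_ceil _
      have h3 : (N₁ : ℝ) ≤ n := by exact_mod_cast hn
      linarith
    have h2 : Real.exp L₀ ≤ Real.log n := by
      have := Real.log_le_log (Real.exp_pos _) h1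
      rwa [Real.log_exp] at this
    have h3 : L₀ ≤ Real.log (Real.log n) := by
      have := Real.log_le_log (Real.exp_pos _) h2
      rwa [Real.log_exp] at this
    refine ⟨h2, h3, ?_⟩
    have h4 : (2 : ℝ) ≤ n := by
      have h5 := Real.add_one_le_exp (Real.exp L₀)
      have h6 := Real.add_one_le_exp L₀
      linarith
    exact_mod_cast h4
  have hN₁2 : 2 ≤ N₁ := (hbase N₁ le_rfl).2.2
  obtain ⟨θ, hθ⟩ := exists_theta (fun n => ((Real.sqrt 2 * Q n : ℝ) : 𝕋)) (fun n => X.T (kp m n))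
    (fun n => X.measurable_T _)
    (fun N => Big N (hh m c N)) N₁ hN₁2
    (fun N _ => exists_private N (hh m c N) _ (Finset.Subset.refl _))
    (by
      intro N hN
      obtain ⟨-, hL, h2⟩ := hbase N hN
      obtain ⟨e1, e2, e3⟩ := hh_facts m c N hm hL h2
      have hh100 : 100 ≤ hh m c N := by unfold hh; omega
      have hcard := big_count N (hh m c N) h2 hh100 e3 e2
      apply prod_bound _ _ (((2 : ℝ) ^ ((c + 5) * 2 ^ kp m (2 * N)))⁻¹) (by positivity) _ N (by omega)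
      · have h3 : 5 * Real.log (N + 1) * 2 ^ ((c + 5) * 2 ^ kp m (2 * N)) ≤ hh m c N := by
          unfold hh
          push_cast
          have := Nat.le_ceil (5 * Real.log (N + 1) * 2 ^ ((c + 5) * 2 ^ kp m (2 * N)))
          linarith
        have h4 : 2 * Real.log (N + 1) * 2 ^ ((c + 5) * 2 ^ kp m (2 * N))
            ≤ ((Big N (hh m c N)).card : ℝ) := by nlinarith
        rw [inv_mul_eq_div, le_div_iff₀ (by positivity)]
        exact h4
      · intro n hn
        have hn1 := Finset.mem_Ico.1 (Finset.mem_filter.1 hn).1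
        have h3 : n ≤ 2 * N := by omega
        have h4 : kp m n ≤ kp m (2 * N) := kp_mono m h3
        refine le_trans ?_ (X.volume_T (kp m n))
        apply ENNReal.ofReal_le_ofReal
        refine le_trans ?_ (dens_ge X c hXc (kp m n))
        apply inv_anti₀ (by positivity)
        apply pow_le_pow_right₀ (by norm_num)
        exact Nat.mul_le_mul_left _ (Nat.pow_le_pow_right (by norm_num) h4))
  set A : Set ℕ := {n | N₁ ≤ n ∧ f5 θ n ∈ X.T (kp m n)} with hA
  obtain ⟨a, ha1, ha2, ha3, ha4⟩ := seq_exists A N₁ (fun n => hh m c (n + 1)) (by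
    intro n hn
    obtain ⟨x, hx, hx2⟩ := hθ (n + 1) (by omega)
    have hx1 := Finset.mem_Ico.1 (Finset.mem_filter.1 hx).1
    exact ⟨x, ⟨by omega, hx2⟩, by omega, by omega⟩)
  have hp : ∀ i, 0 < a i := fun i => by have := ha3 i; omega
  refine ⟨a, 222 + 2 * C₁, ha1, hp, ?_, ?_⟩
  · intro i
    obtain ⟨hE, hL, h2⟩ := hbase (a i) (ha3 i).le
    obtain ⟨hE', hL', h2'⟩ := hbase (a i + 1) (by have := ha3 i; omega)
    obtain ⟨e1, -, -⟩ := hh_facts m c (a i + 1) hm hL' h2'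
    have h4 : (a (i + 1) : ℝ) ≤ a i + hh m c (a i + 1) := by exact_mod_cast ha4 i
    set y := Real.log (a i) with hy
    set L := Real.log y with hLd
    have hC₁0 : 80 ≤ C₁ := by rw [hC₁]; linarith
    have hL0 : 0 < L := by linarith
    have hy0 : 0 < y := lt_of_lt_of_le (Real.exp_pos _) hE
    have hy2 : 2 ≤ y := by
      have := Real.add_one_le_exp L₀
      linarith
    have h5 : Real.log ((a i + 1 : ℕ) : ℝ) ≤ 2 * y := by
      have h6 : Real.log ((a i + 1 : ℕ) : ℝ) ≤ Real.log ((a i : ℝ) ^ 2) := by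
        apply Real.log_le_log
        · positivity
        · have h7 : a i + 1 ≤ a i ^ 2 := by nlinarith
          exact_mod_cast h7
      rw [Real.log_pow] at h6
      push_cast at h6 ⊢
      exact h6
    have h6 : Real.log (Real.log ((a i + 1 : ℕ) : ℝ)) ≤ 2 * L := by
      have h7 : Real.log (Real.log ((a i + 1 : ℕ) : ℝ)) ≤ Real.log (y ^ 2) := by
        apply Real.log_le_log
        · exact lt_of_lt_of_le (Real.exp_pos _) hE'
        · nlinarith
      rw [Real.log_pow] at h7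
      push_cast at h7 ⊢
      exact h7
    have hm0 : (0 : ℝ) < m := by
      have : 0 < m := by omega
      exact_mod_cast this
    have h7 : Real.log (Real.log ((a i + 1 : ℕ) : ℝ)) ^ (1 / (m : ℝ)) ≤ 2 * L ^ (1 / (m : ℝ)) := by
      calc Real.log (Real.log ((a i + 1 : ℕ) : ℝ)) ^ (1 / (m : ℝ)) ≤ (2 * L) ^ (1 / (m : ℝ)) :=
            Real.rpow_le_rpow (by linarith) h6 (by positivity)
        _ = 2 ^ (1 / (m : ℝ)) * L ^ (1 / (m : ℝ)) := Real.mul_rpow (by norm_num) hL0.le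
        _ ≤ 2 * L ^ (1 / (m : ℝ)) := by
            apply mul_le_mul_of_nonneg_right _ (by positivity)
            calc (2 : ℝ) ^ (1 / (m : ℝ)) ≤ 2 ^ (1 : ℝ) := by
                  apply Real.rpow_le_rpow_of_exponent_le (by norm_num)
                  rw [div_le_one hm0]
                  have : 1 ≤ m := by omega
                  exact_mod_cast this
              _ = 2 := Real.rpow_one 2
    have hU0 : 0 ≤ L ^ (1 / (m : ℝ)) := by positivity
    have h8 : Real.exp (C₁ * Real.log (Real.log ((a i + 1 : ℕ) : ℝ)) ^ (1 / (m : ℝ)))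
        ≤ Real.exp ((222 + 2 * C₁) * L ^ (1 / (m : ℝ))) := by
      apply Real.exp_le_exp.2
      have h9 := mul_le_mul_of_nonneg_left h7 (show (0 : ℝ) ≤ C₁ by linarith)
      nlinarith
    have h9 : 0 ≤ Real.log ((a i + 1 : ℕ) : ℝ) := (Real.exp_pos _).le.trans hE'
    have h10 : 111 * Real.log ((a i + 1 : ℕ) : ℝ)
        * Real.exp (C₁ * Real.log (Real.log ((a i + 1 : ℕ) : ℝ)) ^ (1 / (m : ℝ)))
        ≤ ((222 + 2 * C₁) * y) * Real.exp ((222 + 2 * C₁) * L ^ (1 / (m : ℝ))) := by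
      apply mul_le_mul _ h8 (Real.exp_pos _).le (by positivity)
      nlinarith
    linarith
  · intro x r _ hr0 hr1 _ hcon
    have hex : ∀ j, ∃ i, j < 2 ^ m + 1 → (a i : ℝ) = x * r ^ j := by
      intro j
      by_cases hj : j < 2 ^ m + 1
      · obtain ⟨i, hi⟩ := hcon j hj
        exact ⟨i, fun _ => hi⟩
      · exact ⟨0, fun h => absurd h hj⟩
    choose ι hι using hex
    have h4 : 4 ≤ 2 ^ m := by
      calc 4 = 2 ^ 2 := by norm_num
        _ ≤ 2 ^ m := Nat.pow_le_pow_right (by norm_num) hm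
    have hx : 0 < x := by
      have h1 := hι 0 (by omega)
      rw [pow_zero, mul_one] at h1
      rw [← h1]; exact_mod_cast hp _
    have hr : 0 < r := by
      have h1 := hι 1 (by omega)
      rw [pow_one] at h1
      have h2 : (0 : ℝ) < x * r := by rw [← h1]; exact_mod_cast hp _
      exact (mul_pos_iff_of_pos_left hx).1 h2
    have hQ : ∀ n : ℕ, n ≠ 0 → Q n ≤ X.PN 0 (kp m n) := fun n hn =>
      (Q_le_pow hn).trans (PN_ge X m hm hXN n)
    rcases lt_or_gt_of_ne hr1 with h | h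
    · -- ratio smaller than one
      apply kill5 X (2 ^ m + 1) (by omega) hXG (kp m) (kp_mono m) θ (fun j => a (ι (2 ^ m - j)))
      · intro j hj
        have e0 := hι (2 ^ m - j) (by omega)
        have e1 := hι (2 ^ m - (j + 1)) (by omega)
        have e2 := hι (2 ^ m - (j + 2)) (by omega)
        apply gp3_lt (hp _) (x * r ^ (2 ^ m - (j + 2))) r hr h e2
        · rw [e1, mul_assoc, ← pow_succ]; congr 2; omega
        · rw [e0, mul_assoc, ← pow_add]; congr 2; omega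
      · intro j _
        exact (ha2 _).2
      · intro j _
        exact hQ _ (hp _).ne'
    · apply kill5 X (2 ^ m + 1) (by omega) hXG (kp m) (kp_mono m) θ (fun j => a (ι j))
      · intro j hj
        have e0 := hι j (by omega)
        have e1 := hι (j + 1) (by omega)
        have e2 := hι (j + 2) (by omega)
        apply gp3_gt (hp _) (x * r ^ j) r h e0
        · rw [e1, pow_succ]; ring
        · rw [e2, pow_add]; ring
      · intro j _
        exact (ha2 _).2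
      · intro j _
        exact hQ _ (hp _).ne'

end Pool.SG69
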