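import Pool.Agent.Work.MP_b928c0_sg_helper69.Arith
import Pool.Agent.Work.MP_b928c0_sg_helper69.Code

/-!
# Long geometric progressions are killed
-/

set_option autoImplicit false

open Finset

namespace Pool.SG69

/-- half of the second difference of `Q` -/
def mm (a b : ℕ) : ℤ := ∑ p ∈ b.primeFactors, ((b.factorization p : ℤ) - a.factorization p) ^ 2

lemma mm_eq_of_subset {a b : ℕ} {S : Finset ℕ} (h : b.primeFactors ⊆ S)
    (hab : a.primeFactors ⊆ b.primeFactors) :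
    mm a b = ∑ p ∈ S, ((b.factorization p : ℤ) - a.factorization p) ^ 2 := by
  unfold mm
  apply Finset.sum_subset h
  intro p _ hp
  have hp' : p ∉ a.primeFactors := fun h' => hp (hab h')
  rw [← Nat.support_factorization] at hp hp'
  rw [Finsupp.notMem_support_iff.1 hp, Finsupp.notMem_support_iff.1 hp']
  rfl

lemma Q_int_of_subset {n : ℕ} {S : Finset ℕ} (h : n.primeFactors ⊆ S) :
    (Q n : ℤ) = ∑ p ∈ S, (n.factorization p : ℤ) ^ 2 := by
  rw [Q_eq_of_subset h]; push_cast; rfl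

lemma GP3.second {a b c : ℕ} (h : GP3 a b c) : (Q a : ℤ) - 2 * Q b + Q c = 2 * mm a b := by
  rw [Q_int_of_subset h.sub_a, Q_int_of_subset h.sub_c,
    Q_int_of_subset (Finset.Subset.refl b.primeFactors)]
  unfold mm
  rw [Finset.mul_sum, Finset.mul_sum, ← Finset.sum_sub_distrib, ← Finset.sum_add_distrib]
  apply Finset.sum_congr rfl
  intro p _
  have h1 : (c.factorization p : ℤ) = 2 * b.factorization p - a.factorization p := by
    have := h.fac p; omega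
  rw [h1]; ring

lemma GP3.mm_le {a b c : ℕ} (h : GP3 a b c) : mm a b ≤ Q b := by
  rw [Q_int_of_subset (Finset.Subset.refl b.primeFactors)]
  unfold mm
  apply Finset.sum_le_sum
  intro p _
  have := h.fac p
  apply sq_le_sq'
  · omega
  · omega

lemma GP3.mm_pos {a b c : ℕ} (h : GP3 a b c) : 1 ≤ mm a b := by
  have h1 := h.sum_sq_ge
  have h2 : (1 : ℝ) ≤ ((mm a b : ℤ) : ℝ) := by
    refine h1.trans (le_of_eq ?_)
    unfold mm
    push_cast; rfl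
  exact_mod_cast h2

lemma GP3.mm_eq {a b c d : ℕ} (h : GP3 a b c) (h' : GP3 b c d) : mm a b = mm b c := by
  rw [mm_eq_of_subset (S := b.primeFactors ∪ c.primeFactors) Finset.subset_union_left h.sub_a,
    mm_eq_of_subset (S := b.primeFactors ∪ c.primeFactors) Finset.subset_union_right h'.sub_a]
  apply Finset.sum_congr rfl
  intro p _
  have h1 : (c.factorization p : ℤ) = 2 * b.factorization p - a.factorization p := by
    have := h.fac p; omega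
  rw [h1]; ring

/-- the function with values in the circle -/
noncomputable def f5 (θ : ℕ → 𝕋) (n : ℕ) : 𝕋 := ((Real.sqrt 2 * Q n : ℝ) : 𝕋) + F θ n

lemma f5_second (θ : ℕ → 𝕋) {a b c : ℕ} (h : GP3 a b c) :
    f5 θ a - 2 • f5 θ b + f5 θ c = ((2 * Real.sqrt 2 * mm a b : ℝ) : 𝕋) := by
  have h1 : (2 * Real.sqrt 2 * mm a b : ℝ)
      = Real.sqrt 2 * Q a - 2 * (Real.sqrt 2 * Q b) + Real.sqrt 2 * Q c := by
    have h2 : ((Q a : ℤ) : ℝ) - 2 * ((Q b : ℤ) : ℝ) + ((Q c : ℤ) : ℝ) = 2 * (mm a b : ℝ) := by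
      have := h.second
      exact_mod_cast this
    push_cast at h2
    calc (2 * Real.sqrt 2 * mm a b : ℝ) = Real.sqrt 2 * (2 * mm a b) := by ring
      _ = _ := by rw [← h2]; ring
  have hF := h.F_eq θ
  rw [h1]
  have e1 : ((Real.sqrt 2 * Q a - 2 * (Real.sqrt 2 * Q b) + Real.sqrt 2 * Q c : ℝ) : 𝕋)
      = ((Real.sqrt 2 * Q a : ℝ) : 𝕋) - 2 • ((Real.sqrt 2 * Q b : ℝ) : 𝕋)
        + ((Real.sqrt 2 * Q c : ℝ) : 𝕋) := by
    rw [two_mul, two_nsmul]; push_cast; rfl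
  rw [e1]
  unfold f5
  have e2 : ((Real.sqrt 2 * Q a : ℝ) : 𝕋) + F θ a - 2 • (((Real.sqrt 2 * Q b : ℝ) : 𝕋) + F θ b)
      + (((Real.sqrt 2 * Q c : ℝ) : 𝕋) + F θ c)
      = (((Real.sqrt 2 * Q a : ℝ) : 𝕋) - 2 • ((Real.sqrt 2 * Q b : ℝ) : 𝕋)
        + ((Real.sqrt 2 * Q c : ℝ) : 𝕋)) + (F θ a - 2 • F θ b + F θ c) := by
    rw [smul_add]; abel
  rw [e2, hF, add_zero]

lemma f5_third (θ : ℕ → 𝕋) {a b c d : ℕ} (h : GP3 a b c) (h' : GP3 b c d) :
    f5 θ a - 3 • f5 θ b + 3 • f5 θ c - f5 θ d = 0 := by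
  have h1 := f5_second θ h
  have h2 := f5_second θ h'
  rw [h.mm_eq h', ← h2] at h1
  have h3 : f5 θ a - 3 • f5 θ b + 3 • f5 θ c - f5 θ d
      = (f5 θ a - 2 • f5 θ b + f5 θ c) - (f5 θ b - 2 • f5 θ c + f5 θ d) := by
    have e3 : ∀ x : 𝕋, 3 • x = x + x + x := fun x => by
      rw [show (3 : ℕ) = 2 + 1 by norm_num, add_smul, two_smul, one_smul]
    rw [e3, e3, two_smul, two_smul]; abel
  rw [h3, h1, sub_self]

lemma circle_eq_zero {x : ℝ} (h : (x : 𝕋) = 0) : ∃ z : ℤ, x = z := by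
  obtain ⟨n, hn⟩ := (AddCircle.coe_eq_zero_iff (p := (1 : ℝ))).1 h
  exact ⟨n, by rw [← hn]; simp⟩

/-- `√2` is badly approximable -/
lemma bad_approx (m z : ℤ) (hm : 1 ≤ m) (h : |2 * Real.sqrt 2 * m - z| ≤ 3 / 32 / m) : False := by
  have hm' : (1 : ℝ) ≤ m := by exact_mod_cast hm
  have hs : Real.sqrt 2 * Real.sqrt 2 = 2 := Real.mul_self_sqrt (by norm_num)
  have hs0 : 0 < Real.sqrt 2 := Real.sqrt_pos.2 (by norm_num)
  have hs1 : Real.sqrt 2 ≤ 3 / 2 := by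
    rw [Real.sqrt_le_left (by norm_num)]; norm_num
  have hne : 8 * m ^ 2 - z ^ 2 ≠ 0 := by
    intro hcon
    have h1 : (8 : ℝ) * m ^ 2 = z ^ 2 := by
      have : 8 * m ^ 2 = z ^ 2 := by omega
      exact_mod_cast this
    have h2 : (2 * m * Real.sqrt 2) ^ 2 = (z : ℝ) ^ 2 := by
      rw [← h1]
      calc (2 * m * Real.sqrt 2) ^ 2 = 4 * m ^ 2 * (Real.sqrt 2 * Real.sqrt 2) := by ring
        _ = 8 * (m : ℝ) ^ 2 := by rw [hs]; ring
    have hirr := irrational_sqrt_two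
    have h2m : (2 * (m : ℝ)) ≠ 0 := by positivity
    rcases sq_eq_sq_iff_eq_or_eq_neg.1 h2 with h3 | h3
    · apply hirr
      refine ⟨(z : ℚ) / (2 * m), ?_⟩
      push_cast
      rw [div_eq_iff h2m, ← h3]; ring
    · apply hirr
      refine ⟨-(z : ℚ) / (2 * m), ?_⟩
      push_cast
      rw [div_eq_iff h2m, ← h3]; ring
  have h1 : (1 : ℝ) ≤ |8 * (m : ℝ) ^ 2 - z ^ 2| := by
    have h2 : (1 : ℤ) ≤ |8 * m ^ 2 - z ^ 2| := Int.one_le_abs hne
    exact_mod_cast h2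
  have h2 : |8 * (m : ℝ) ^ 2 - z ^ 2| = |2 * Real.sqrt 2 * m - z| * |2 * Real.sqrt 2 * m + z| := by
    rw [← abs_mul]
    congr 1
    calc 8 * (m : ℝ) ^ 2 - z ^ 2 = 4 * (Real.sqrt 2 * Real.sqrt 2) * m ^ 2 - z ^ 2 := by
          rw [hs]; ring
      _ = _ := by ring
  have h3 : |2 * Real.sqrt 2 * m + z| ≤ 7 * m := by
    have h4 : 3 / 32 / (m : ℝ) ≤ 3 / 32 := div_le_self (by norm_num) hm'
    have h5 := abs_le.1 (h.trans h4)
    have h6 : Real.sqrt 2 * m ≤ 3 / 2 * m := mul_le_mul_of_nonneg_right hs1 (by linarith)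
    have h7 : 0 ≤ Real.sqrt 2 * m := by positivity
    rw [abs_le]
    constructor
    · linarith
    · linarith
  have h4 : |2 * Real.sqrt 2 * m - z| * |2 * Real.sqrt 2 * m + z| ≤ 3 / 32 / m * (7 * m) :=
    mul_le_mul h h3 (abs_nonneg _) (by positivity)
  have h5 : 3 / 32 / (m : ℝ) * (7 * m) = 21 / 32 := by
    field_simp; norm_num
  rw [h5, ← h2] at h4
  linarith

/-- the killing lemma -/
lemma kill5 (X : Dig) (k : ℕ) (hk : 4 ≤ k) (hG : ∀ b, Good 2 k (X.S b)) (κ : ℕ → ℕ)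
    (hκ : Monotone κ) (θ : ℕ → 𝕋) (c : ℕ → ℕ)
    (hc : ∀ j, j + 2 < k → GP3 (c j) (c (j + 1)) (c (j + 2)))
    (hf : ∀ j < k, f5 θ (c j) ∈ X.T (κ (c j)))
    (hQ : ∀ j < k, Q (c j) ≤ X.PN 0 (κ (c j))) : False := by
  have hex : ∀ j, ∃ g : ℝ, j < k → g ∈ X.TT (κ (c j)) 0 ∧ (g : 𝕋) = f5 θ (c j) := by
    intro j
    by_cases hj : j < k
    · obtain ⟨g, h1, h2⟩ := hf j hj
      exact ⟨g, fun _ => ⟨h1, h2⟩⟩
    · exact ⟨0, fun h => absurd h hj⟩
  choose g hg using hex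
  have hmono : ∀ j, j + 2 < k → κ (c j) ≤ κ (c (j + 1)) ∧ κ (c (j + 1)) ≤ κ (c (j + 2)) :=
    fun j hj => ⟨hκ (hc j hj).lt.le, hκ (hc j hj).lt'.le⟩
  have hwin : ∀ j, j + 3 < k → g j - 3 * g (j + 1) + 3 * g (j + 2) - g (j + 3) = 0 ∧
      κ (c (j + 1)) = κ (c j) ∧ κ (c (j + 2)) = κ (c j) ∧ κ (c (j + 3)) = κ (c j) := by
    intro j hj
    have h1 := f5_third θ (hc j (by omega)) (hc (j + 1) (by omega))
    have h2 : ((g j - 3 * g (j + 1) + 3 * g (j + 2) - g (j + 3) : ℝ) : 𝕋) = 0 := by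
      have e3 : ∀ x : ℝ, ((3 * x : ℝ) : 𝕋) = 3 • (x : 𝕋) := by
        intro x
        have : ((3 • x : ℝ) : 𝕋) = 3 • (x : 𝕋) := rfl
        rw [← this, nsmul_eq_mul]
        norm_num
      rw [AddCircle.coe_sub, AddCircle.coe_add, AddCircle.coe_sub, e3, e3,
        (hg j (by omega)).2, (hg (j + 1) (by omega)).2, (hg (j + 2) (by omega)).2,
        (hg (j + 3) (by omega)).2]
      exact h1
    obtain ⟨z, hz⟩ := circle_eq_zero h2
    obtain ⟨m1, m2⟩ := hmono j (by omega)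
    obtain ⟨m3, m4⟩ := hmono (j + 1) (by omega)
    have h3 := X.window _ 0 _ _ _ _ _ _ _ z m1 m2 m4 (hg j (by omega)).1
      (hg (j + 1) (by omega)).1 (hg (j + 2) (by omega)).1 (hg (j + 3) (by omega)).1 hz
    refine ⟨?_, h3.2.1, h3.2.2.1, h3.2.2.2⟩
    rw [hz, h3.1]; simp
  have hκc : ∀ j < k, κ (c j) = κ (c 0) := by
    intro j
    induction j using Nat.strong_induction_on with
    | _ j ih =>
      intro hj
      have h0 := hwin 0 (by omega)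
      by_cases h3 : j ≤ 3
      · interval_cases j
        · rfl
        · exact h0.2.1
        · exact h0.2.2.1
        · exact h0.2.2.2
      · obtain ⟨i, rfl⟩ : ∃ i, j = i + 3 := ⟨j - 3, by omega⟩
        rw [(hwin i (by omega)).2.2.2]
        exact ih i (by omega) (by omega)
  have hclose := X.close k hG (κ (c 0)) 0 g
    (fun j hj => by rw [← hκc j hj]; exact (hg j hj).1)
    (fun j hj => (hwin j hj).1)
  have h3 := hc 0 (by omega)
  have hsec := f5_second θ h3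
  have h4 : ((g 0 - 2 * g 1 + g 2 : ℝ) : 𝕋) = ((2 * Real.sqrt 2 * mm (c 0) (c (0 + 1)) : ℝ) : 𝕋) := by
    rw [← hsec, ← (hg 0 (by omega)).2, ← (hg (0 + 1) (by omega)).2, ← (hg (0 + 2) (by omega)).2]
    rw [two_mul, two_nsmul]; push_cast; rfl
  have h5 : ((2 * Real.sqrt 2 * mm (c 0) (c (0 + 1)) - (g 0 - 2 * g 1 + g 2) : ℝ) : 𝕋) = 0 := by
    rw [AddCircle.coe_sub, h4, sub_self]
  obtain ⟨z, hz⟩ := circle_eq_zero h5
  set m := mm (c 0) (c (0 + 1)) with hm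
  have hm1 : 1 ≤ m := h3.mm_pos
  have hmQ : m ≤ Q (c (0 + 1)) := h3.mm_le
  have hQ1 := hQ 1 (by omega)
  rw [hκc 1 (by omega)] at hQ1
  have hmP : (m : ℝ) ≤ X.PN 0 (κ (c 0)) := by
    have : m ≤ ((X.PN 0 (κ (c 0)) : ℕ) : ℤ) := by
      refine hmQ.trans ?_
      exact_mod_cast hQ1
    exact_mod_cast this
  have hm0 : (0 : ℝ) < m := by exact_mod_cast hm1
  have hP0 : (0 : ℝ) < X.PN 0 (κ (c 0)) := by exact_mod_cast X.PN_pos 0 _
  apply bad_approx m z hm1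
  have e1 : 2 * Real.sqrt 2 * (m : ℝ) - z = g 0 - 2 * g 1 + g 2 := by linarith
  rw [e1]
  have c1 := abs_le.1 (hclose 1 (by omega))
  have c2 := abs_le.1 (hclose 2 (by omega))
  have c3 : 1 / 32 / (X.PN 0 (κ (c 0)) : ℝ) ≤ 1 / 32 / m :=
    div_le_div_of_nonneg_left (by norm_num) hm0 hmP
  have c4 : 3 / 32 / (m : ℝ) = 3 * (1 / 32 / m) := by ring
  rw [c4, abs_le]
  constructor <;> linarith

end Pool.SG69
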