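import Mathlib

/-!
# Large sets of integers without long polynomial progressions of bounded degree
(Behrend, Rankin, Łaba-Lacey, O'Bryant)
-/

set_option autoImplicit false

open Finset Polynomial

namespace Pool.SG69

/-- coefficients of the `m`-th difference -/
def cf (m l : ℕ) : ℤ := (-1) ^ (m - l) * (m.choose l : ℤ)

/-- `m`-th difference -/
def dd (m : ℕ) (f : ℕ → ℤ) (j : ℕ) : ℤ := ∑ l ∈ range (m + 1), cf m l * f (j + l)

/-- all `m`-th differences inside `{0, ..., k - 1}` vanish -/
def DZ (m k : ℕ) (f : ℕ → ℤ) : Prop := ∀ j, j + m < k → dd m f j = 0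

/-- `S` contains no nonconstant progression of degree `D` and length `k` -/
def Good (D k : ℕ) (S : Finset ℕ) : Prop :=
  ∀ y : ℕ → ℤ, (∀ j < k, ∃ s ∈ S, y j = (s : ℤ)) → DZ (D + 1) k y → ∀ j < k, y j = y 0

lemma cf_self (m : ℕ) : cf m m = 1 := by simp [cf]

lemma sum_abs_cf (m : ℕ) : ∑ l ∈ range (m + 1), |cf m l| = 2 ^ m := by
  have h1 : ∀ l, |cf m l| = (m.choose l : ℤ) := by
    intro l
    unfold cf
    rw [abs_mul, abs_pow, abs_neg, abs_one, one_pow, one_mul, Nat.abs_cast]
  simp_rw [h1]
  exact_mod_cast Nat.sum_range_choose m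

lemma poly_dd (P : ℝ[X]) (m : ℕ) (hP : P.natDegree < m) (x : ℝ) :
    ∑ l ∈ range (m + 1), (cf m l : ℝ) * P.eval (x + l) = 0 := by
  have h1 := congrFun (Polynomial.fwdDiff_iter_eq_zero_of_degree_lt hP) x
  rw [fwdDiff_iter_eq_sum_shift, Pi.zero_apply] at h1
  rw [← h1]
  apply Finset.sum_congr rfl
  intro l _
  unfold cf
  simp

/-- integer sequences with vanishing differences are polynomial -/
lemma exists_poly (D k : ℕ) (f : ℕ → ℤ) (hf : DZ (D + 1) k f) :
    ∃ P : ℝ[X], P.natDegree ≤ D ∧ ∀ j < k, (f j : ℝ) = P.eval (j : ℝ) := by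
  set v : ℕ → ℝ := fun i => (i : ℝ) with hv
  have hinj : Set.InjOn v (range (D + 1) : Finset ℕ) := by
    intro a _ b _ hab
    have hab' : (a : ℝ) = (b : ℝ) := hab
    exact_mod_cast hab'
  set P : ℝ[X] := Lagrange.interpolate (range (D + 1)) v (fun i => (f i : ℝ)) with hP
  have hdeg : P.natDegree ≤ D := by
    have h1 := Lagrange.degree_interpolate_lt (fun i => (f i : ℝ)) hinj
    rw [Finset.card_range] at h1
    have h2 : P.natDegree < D + 1 := by
      by_cases hP0 : P = 0
      · rw [hP0]; simp
      · exact (Polynomial.natDegree_lt_iff_degree_lt hP0).2 h1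
    omega
  refine ⟨P, hdeg, ?_⟩
  intro j
  induction j using Nat.strong_induction_on with
  | _ j ih =>
    intro hj
    by_cases hjD : j ≤ D
    · have h1 := Lagrange.eval_interpolate_at_node (fun i => (f i : ℝ)) hinj
        (Finset.mem_range.2 (Nat.lt_succ_of_le hjD))
      exact h1.symm
    · push Not at hjD
      have h1 := hf (j - (D + 1)) (by omega)
      have h2 := poly_dd P (D + 1) (by omega) ((j - (D + 1) : ℕ) : ℝ)
      unfold dd at h1
      rw [Finset.sum_range_succ, cf_self, one_mul] at h1
      rw [Finset.sum_range_succ, cf_self] at h2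
      have e1 : j - (D + 1) + (D + 1) = j := by omega
      rw [e1] at h1
      have e2 : (((j - (D + 1) : ℕ) : ℝ) + ((D + 1 : ℕ) : ℝ)) = (j : ℝ) := by
        rw [← Nat.cast_add, e1]
      rw [e2] at h2
      have h3 : ∑ l ∈ range (D + 1), (cf (D + 1) l : ℝ) * P.eval (((j - (D + 1) : ℕ) : ℝ) + (l : ℝ))
          = ((∑ l ∈ range (D + 1), cf (D + 1) l * f (j - (D + 1) + l) : ℤ) : ℝ) := by
        push_cast
        apply Finset.sum_congr rfl
        intro l hl
        rw [Finset.mem_range] at hl
        have h4 := ih (j - (D + 1) + l) (by omega) (by omega)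
        rw [h4]
        push_cast
        rfl
      rw [h3] at h2
      have h5 : (f j : ℝ) = -((∑ l ∈ range (D + 1), cf (D + 1) l * f (j - (D + 1) + l) : ℤ) : ℝ) := by
        have : f j = -(∑ l ∈ range (D + 1), cf (D + 1) l * f (j - (D + 1) + l)) := by omega
        rw [this]; push_cast; rfl
      rw [h5]
      push_cast at h2 ⊢
      linarith

/-- conversely -/
lemma dz_of_poly (m k : ℕ) (f : ℕ → ℤ) (P : ℝ[X]) (hP : P.natDegree < m)
    (hf : ∀ j < k, (f j : ℝ) = P.eval (j : ℝ)) : DZ m k f := by
  intro j hj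
  have h1 := poly_dd P m hP (j : ℝ)
  have h2 : ((dd m f j : ℤ) : ℝ) = 0 := by
    rw [← h1]
    unfold dd
    push_cast
    apply Finset.sum_congr rfl
    intro l hl
    rw [Finset.mem_range] at hl
    rw [hf (j + l) (by omega)]
    push_cast
    rfl
  exact_mod_cast h2

/-- digits are unique, also with signs -/
lemma digits_zero (B : ℤ) (hB : 0 < B) : ∀ (n : ℕ) (z : Fin n → ℤ), (∀ i, |z i| < B) →
    ∑ i, z i * B ^ (i : ℕ) = 0 → ∀ i, z i = 0 := by
  intro n
  induction n with
  | zero => intro z _ _ i; exact i.elim0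
  | succ n ih =>
    intro z hz hs
    rw [Fin.sum_univ_succ] at hs
    have h1 : ∑ i : Fin n, z i.succ * B ^ ((i.succ : Fin (n + 1)) : ℕ)
        = B * ∑ i : Fin n, z i.succ * B ^ (i : ℕ) := by
      rw [Finset.mul_sum]
      apply Finset.sum_congr rfl
      intro i _
      rw [Fin.val_succ, pow_succ]; ring
    rw [h1] at hs
    simp only [Fin.val_zero, pow_zero, mul_one] at hs
    have h2 : B ∣ z 0 := ⟨-∑ i : Fin n, z i.succ * B ^ (i : ℕ), by linarith⟩
    have h3 : z 0 = 0 := Int.eq_zero_of_abs_lt_dvd h2 (hz 0)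
    rw [h3, zero_add] at hs
    have h4 := (mul_eq_zero.1 hs).resolve_left hB.ne'
    have h5 := ih (fun i => z i.succ) (fun i => hz i.succ) h4
    intro i
    exact Fin.cases h3 h5 i

/-- the digits of a sequence with vanishing differences have vanishing differences -/
lemma digits_dz (m k n B d : ℕ) (hB : 0 < B) (hd : 2 ^ m * d < B + 2 ^ m) (v : ℕ → Fin n → ℕ)
    (hv : ∀ j < k, ∀ i, v j i < d) (y : ℕ → ℤ)
    (hy : ∀ j < k, y j = ∑ i, (v j i : ℤ) * (B : ℤ) ^ (i : ℕ)) (hz : DZ m k y) (i : Fin n) :
    DZ m k (fun j => (v j i : ℤ)) := by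
  intro j hj
  have h1 := hz j hj
  have h2 : ∑ i, dd m (fun j => (v j i : ℤ)) j * (B : ℤ) ^ (i : ℕ) = 0 := by
    rw [← h1]
    unfold dd
    simp_rw [Finset.sum_mul]
    rw [Finset.sum_comm]
    apply Finset.sum_congr rfl
    intro l hl
    rw [Finset.mem_range] at hl
    rw [hy (j + l) (by omega), Finset.mul_sum]
    apply Finset.sum_congr rfl
    intro i _
    ring
  apply digits_zero (B : ℤ) (by exact_mod_cast hB) n _ _ h2
  intro i
  unfold dd
  have hd0 : 1 ≤ d := by
    have := hv j (by omega) i
    omega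
  calc |∑ l ∈ range (m + 1), cf m l * (v (j + l) i : ℤ)|
      ≤ ∑ l ∈ range (m + 1), |cf m l * (v (j + l) i : ℤ)| := Finset.abs_sum_le_sum_abs _ _
    _ ≤ ∑ l ∈ range (m + 1), |cf m l| * ((d : ℤ) - 1) := by
        apply Finset.sum_le_sum
        intro l hl
        rw [Finset.mem_range] at hl
        rw [abs_mul, Nat.abs_cast]
        apply mul_le_mul_of_nonneg_left _ (abs_nonneg _)
        have := hv (j + l) (by omega) i
        omega
    _ = 2 ^ m * ((d : ℤ) - 1) := by rw [← Finset.sum_mul, sum_abs_cf]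
    _ < B := by
        have h3 : (2 : ℤ) ^ m * d < B + 2 ^ m := by exact_mod_cast hd
        linarith

/-- a sum of squares of real polynomials is constant only if the polynomials are constant -/
lemma const_of_sum_sq {n : ℕ} (P : Fin n → ℝ[X]) (c : ℝ) (h : ∑ i, P i ^ 2 = C c) (i : Fin n) :
    (P i).degree ≤ 0 := by
  rw [← Polynomial.isBoundedUnder_abs_atTop_iff]
  refine ⟨|c| + 1, Filter.eventually_map.2 (Filter.Eventually.of_forall fun x => ?_)⟩
  have h1 := congrArg (Polynomial.eval x) h
  rw [Polynomial.eval_finsetSum, Polynomial.eval_C] at h1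
  have h2 : (P i).eval x ^ 2 ≤ c := by
    rw [← h1]
    have h3 : (P i ^ 2).eval x ≤ ∑ i, (P i ^ 2).eval x :=
      Finset.single_le_sum (f := fun i => (P i ^ 2).eval x)
        (fun j _ => by rw [Polynomial.eval_pow]; exact sq_nonneg _) (Finset.mem_univ i)
    rwa [Polynomial.eval_pow] at h3
  show |(P i).eval x| ≤ |c| + 1
  have h4 : c ≤ |c| := le_abs_self c
  have h5 : 0 ≤ |c| := abs_nonneg c
  apply abs_le_of_sq_le_sq' _ (by linarith) |> abs_le.2
  nlinarith

/-- pigeonhole over shifts -/
lemma exists_shift {α : Type} [DecidableEq α] (Y : Finset α) (r : α → ℕ) (S : Finset ℕ) (N : ℕ)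
    (hN : 0 < N) (hr : ∀ v ∈ Y, r v < N) (hS : ∀ s ∈ S, s < N) :
    ∃ t, Y.card * S.card ≤ (Y.filter fun v => ∃ s ∈ S, r v + t = s + N).card * (2 * N) := by
  by_contra hcon
  push Not at hcon
  have h1 : ∀ v ∈ Y, S.card ≤ ((range (2 * N)).filter fun t => ∃ s ∈ S, r v + t = s + N).card := by
    intro v hv
    have hrv := hr v hv
    apply Finset.card_le_card_of_injOn (fun s => s + N - r v)
    · intro s hs
      have hs' : s ∈ S := hs
      have := hS s hs'
      simp only [Finset.coe_filter, Finset.mem_range, Set.mem_ofPred_eq]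
      exact ⟨by omega, s, hs', by omega⟩
    · intro s _ s' _ hss
      simp only at hss
      omega
  have h2 : ∑ t ∈ range (2 * N), (Y.filter fun v => ∃ s ∈ S, r v + t = s + N).card
      = ∑ v ∈ Y, ((range (2 * N)).filter fun t => ∃ s ∈ S, r v + t = s + N).card := by
    simp_rw [Finset.card_filter]
    rw [Finset.sum_comm]
  have h3 : Y.card * S.card
      ≤ ∑ t ∈ range (2 * N), (Y.filter fun v => ∃ s ∈ S, r v + t = s + N).card := by
    rw [h2, ← smul_eq_mul]
    exact Finset.card_nsmul_le_sum _ _ _ h1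
  have h4 : (∑ t ∈ range (2 * N), (Y.filter fun v => ∃ s ∈ S, r v + t = s + N).card) * (2 * N)
      < ∑ _t ∈ range (2 * N), Y.card * S.card := by
    rw [Finset.sum_mul]
    apply Finset.sum_lt_sum_of_nonempty
    · rw [Finset.nonempty_range_iff]; omega
    · intro t _
      exact hcon t
  rw [Finset.sum_const, Finset.card_range, smul_eq_mul, mul_comm] at h4
  have h5 := lt_of_mul_lt_mul_left h4 (Nat.zero_le _)
  omega

lemma good_singleton (D k : ℕ) : Good D k {0} := by
  intro y hy _ j hj
  obtain ⟨s, hs, h1⟩ := hy j hj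
  obtain ⟨s', hs', h2⟩ := hy 0 (by omega)
  rw [Finset.mem_singleton] at hs hs'
  rw [h1, h2, hs, hs']

/-- the theorem of Rankin, Łaba-Lacey and O'Bryant, in a rough form -/
theorem rankin (e : ℕ) : ∀ D k : ℕ, 2 ^ e * D < k → ∃ c : ℕ, ∀ n : ℕ, 1 ≤ n →
    ∃ S : Finset ℕ, (∀ s ∈ S, s < 2 ^ (n ^ (e + 1))) ∧ Good D k S ∧
      2 ^ (n ^ (e + 1)) ≤ S.card * 2 ^ (c * n) := by
  classical
  induction e with
  | zero =>
    intro D k _
    refine ⟨1, fun n hn => ⟨{0}, ?_, good_singleton D k, ?_⟩⟩
    · intro s hs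
      rw [Finset.mem_singleton] at hs
      rw [hs]; positivity
    · simp
  | succ e ih =>
    intro D k hk
    obtain ⟨c, hc⟩ := ih (2 * D) k (by rw [pow_succ] at hk; linarith)
    have h2D : 2 * D < k := by
      have : 1 ≤ 2 ^ e := Nat.one_le_two_pow
      rw [pow_succ] at hk
      nlinarith
    refine ⟨D + 2 + 3 * c, fun n hn => ?_⟩
    set s := n ^ (e + 1) with hs
    have hns : n ≤ s := by
      rw [hs, pow_succ]
      have : 1 ≤ n ^ e := Nat.one_le_pow _ _ hn
      nlinarith
    have hexp : n ^ (e + 1 + 1) = s * n := by rw [pow_succ]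
    rw [hexp]
    by_cases hsmall : s ≤ D
    · refine ⟨{0}, ?_, good_singleton D k, ?_⟩
      · intro t ht
        rw [Finset.mem_singleton] at ht
        rw [ht]; positivity
      · rw [Finset.card_singleton, one_mul]
        apply Nat.pow_le_pow_right (by norm_num)
        apply Nat.mul_le_mul_right
        omega
    push Not at hsmall
    set d := 2 ^ (s - D - 1) with hd
    set B := 2 ^ s with hB
    have hBd : B = 2 ^ (D + 1) * d := by
      rw [hB, hd, ← pow_add]; congr 1; omega
    have hdB : d ≤ B := by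
      rw [hBd]; exact Nat.le_mul_of_pos_left d (by positivity)
    have hd0 : 0 < d := by positivity
    have hB0 : 0 < B := by positivity
    set N := 2 ^ ((3 * n) ^ (e + 1)) with hN
    obtain ⟨S', hS'N, hS'G, hS'c⟩ := hc (3 * n) (by omega)
    set Y := Behrend.box n d with hY
    -- the norms are smaller than N
    have hnorm : ∀ v ∈ Y, ∑ i, v i ^ 2 < N := by
      intro v hv
      rw [hY, Behrend.mem_box] at hv
      have h1 : ∑ i, v i ^ 2 ≤ ∑ _i : Fin n, (d ^ 2) :=
        Finset.sum_le_sum fun i _ => Nat.pow_le_pow_left (hv i).le 2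
      rw [Finset.sum_const, Finset.card_univ, Fintype.card_fin, smul_eq_mul] at h1
      have h2 : n < 2 ^ n := Nat.lt_two_pow_self
      have h3 : n * d ^ 2 < 2 ^ n * d ^ 2 := Nat.mul_lt_mul_of_pos_right h2 (by positivity)
      have h4 : 2 ^ n * d ^ 2 ≤ N := by
        rw [hd, hN, ← pow_mul, ← pow_add]
        apply Nat.pow_le_pow_right (by norm_num)
        have h5 : 3 * s ≤ (3 * n) ^ (e + 1) := by
          rw [mul_pow, ← hs]
          apply Nat.mul_le_mul_right
          calc 3 = 3 ^ 1 := by norm_num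
            _ ≤ 3 ^ (e + 1) := Nat.pow_le_pow_right (by norm_num) (by omega)
        omega
      omega
    obtain ⟨t, ht⟩ := exists_shift Y (fun v => ∑ i, v i ^ 2) S' N (by positivity) hnorm hS'N
    set Yt := Y.filter (fun v => ∃ s ∈ S', ∑ i, v i ^ 2 + t = s + N) with hYt
    have hbox : ∀ v ∈ Yt, ∀ i, v i < d := fun v hv =>
      Behrend.mem_box.1 (Finset.mem_filter.1 hv).1
    refine ⟨Yt.image (Behrend.map B), ?_, ?_, ?_⟩
    · -- size of the elements
      intro x hx
      obtain ⟨v, hv, rfl⟩ := Finset.mem_image.1 hx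
      have h1 : ∀ i, v i < B := fun i => lt_of_lt_of_le (hbox v hv i) hdB
      rw [pow_mul, ← hB]
      have key : ∀ (m : ℕ) (w : Fin m → ℕ), (∀ i, w i < B) → Behrend.map B w < B ^ m := by
        intro m
        induction m with
        | zero => intro w _; simp
        | succ m ihm =>
          intro w hw
          rw [Behrend.map_succ', pow_succ]
          have h2 := ihm (w ∘ Fin.succ) (fun i => hw i.succ)
          have h3 := hw 0
          calc w 0 + Behrend.map B (w ∘ Fin.succ) * B
              < B + Behrend.map B (w ∘ Fin.succ) * B := by omega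
            _ = (Behrend.map B (w ∘ Fin.succ) + 1) * B := by ring
            _ ≤ B ^ m * B := Nat.mul_le_mul_right _ h2
      exact key n v h1
    · -- no progressions
      intro y hy hz
      have hex : ∀ j, ∃ v : Fin n → ℕ, j < k → v ∈ Yt ∧ y j = ((Behrend.map B v : ℕ) : ℤ) := by
        intro j
        by_cases hj : j < k
        · obtain ⟨x, hx, hyx⟩ := hy j hj
          obtain ⟨v, hv, rfl⟩ := Finset.mem_image.1 hx
          exact ⟨v, fun _ => ⟨hv, hyx⟩⟩
        · exact ⟨fun _ => 0, fun h => absurd h hj⟩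
      choose v hv using hex
      have hdz := fun i => digits_dz (D + 1) k n B d hB0
        (by rw [hBd]; have : 0 < 2 ^ (D + 1) := by positivity
            omega) v
        (fun j hj i => hbox (v j) (hv j hj).1 i) y
        (fun j hj => by
          rw [(hv j hj).2, Behrend.map_apply]
          push_cast
          rfl) hz i
      have hP := fun i => exists_poly D k _ (hdz i)
      choose P hPdeg hPev using hP
      -- the sum of squares
      set R : ℝ[X] := ∑ i, P i ^ 2 with hR
      have hRdeg : R.natDegree ≤ 2 * D := by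
        apply Polynomial.natDegree_sum_le_of_forall_le
        intro i _
        refine (Polynomial.natDegree_pow_le).trans ?_
        exact Nat.mul_le_mul_left 2 (hPdeg i)
      have hRev : ∀ j < k, R.eval (j : ℝ) = ((∑ i, v j i ^ 2 : ℕ) : ℝ) := by
        intro j hj
        rw [hR, Polynomial.eval_finsetSum]
        push_cast
        apply Finset.sum_congr rfl
        intro i _
        rw [Polynomial.eval_pow, ← hPev i j hj]
        push_cast
        rfl
      set w : ℕ → ℤ := fun j => ((∑ i, v j i ^ 2 : ℕ) : ℤ) + t - N with hw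
      have hwdz : DZ (2 * D + 1) k w := by
        apply dz_of_poly (2 * D + 1) k w (R + C ((t : ℝ) - N))
        · rw [Polynomial.natDegree_add_C]; omega
        · intro j hj
          rw [Polynomial.eval_add, Polynomial.eval_C, hRev j hj, hw]
          push_cast
          ring
      have hwS : ∀ j < k, ∃ s ∈ S', w j = (s : ℤ) := by
        intro j hj
        obtain ⟨s, hs1, hs2⟩ := (Finset.mem_filter.1 (hv j hj).1).2
        refine ⟨s, hs1, ?_⟩
        rw [hw]
        simp only
        omega
      have hwc := hS'G w hwS hwdz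
      have hRc : ∀ j < k, R.eval (j : ℝ) = R.eval 0 := by
        intro j hj
        have h1 := hRev j hj
        have h2 := hRev 0 (by omega)
        have h3 := hwc j hj
        rw [hw] at h3
        simp only at h3
        have h4 : ((∑ i, v j i ^ 2 : ℕ) : ℤ) = ((∑ i, v 0 i ^ 2 : ℕ) : ℤ) := by omega
        have h5 : (∑ i, v j i ^ 2 : ℕ) = (∑ i, v 0 i ^ 2 : ℕ) := by exact_mod_cast h4
        rw [h1, h5, ← h2, Nat.cast_zero]
      -- R is constant
      have hRC : R = C (R.eval 0) := by
        have h1 : R - C (R.eval 0) = 0 := by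
          apply Polynomial.eq_zero_of_natDegree_lt_card_of_eval_eq_zero' _
            ((range k).image (fun j : ℕ => (j : ℝ)))
          · intro x hx
            obtain ⟨j, hj, rfl⟩ := Finset.mem_image.1 hx
            rw [Polynomial.eval_sub, Polynomial.eval_C, hRc j (Finset.mem_range.1 hj), sub_self]
          · rw [Finset.card_image_of_injective _ Nat.cast_injective, Finset.card_range,
              Polynomial.natDegree_sub_C]
            omega
        exact sub_eq_zero.1 h1
      have hconst := const_of_sum_sq P _ hRC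
      intro j hj
      have h1 : v j = v 0 := by
        funext i
        have h2 := hPev i j hj
        have h3 := hPev i 0 (by omega)
        rw [Polynomial.eq_C_of_degree_le_zero (hconst i), Polynomial.eval_C] at h2 h3
        have h4 : ((v j i : ℤ) : ℝ) = ((v 0 i : ℤ) : ℝ) := by rw [h2, h3]
        exact_mod_cast h4
      rw [(hv j hj).2, (hv 0 (by omega)).2, h1]
    · -- cardinality
      have hcard : (Yt.image (Behrend.map B)).card = Yt.card := by
        apply Finset.card_image_of_injOn
        intro a ha b hb hab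
        exact Behrend.map_injOn (fun i => lt_of_lt_of_le (hbox a ha i) hdB)
          (fun i => lt_of_lt_of_le (hbox b hb i) hdB) hab
      rw [hcard]
      have h1 : Y.card = d ^ n := by rw [hY, Behrend.card_box]
      have h2 : d ^ n ≤ Yt.card * 2 ^ (1 + 3 * c * n) := by
        have h3 : d ^ n * N ≤ (Yt.card * 2 ^ (1 + 3 * c * n)) * N := by
          calc d ^ n * N ≤ d ^ n * (S'.card * 2 ^ (c * (3 * n))) := Nat.mul_le_mul_left _ hS'c
            _ = (Y.card * S'.card) * 2 ^ (c * (3 * n)) := by rw [h1]; ring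
            _ ≤ (Yt.card * (2 * N)) * 2 ^ (c * (3 * n)) := Nat.mul_le_mul_right _ ht
            _ = (Yt.card * 2 ^ (1 + 3 * c * n)) * N := by
                rw [pow_add]
                have : c * (3 * n) = 3 * c * n := by ring
                rw [this]; ring
        exact Nat.le_of_mul_le_mul_right h3 (by positivity)
      calc 2 ^ (s * n) = B ^ n := by rw [hB, pow_mul]
        _ = 2 ^ ((D + 1) * n) * d ^ n := by rw [hBd, mul_pow, ← pow_mul]
        _ ≤ 2 ^ ((D + 1) * n) * (Yt.card * 2 ^ (1 + 3 * c * n)) := Nat.mul_le_mul_left _ h2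
        _ = Yt.card * 2 ^ ((D + 1) * n + (1 + 3 * c * n)) := by rw [pow_add]; ring
        _ ≤ Yt.card * 2 ^ ((D + 2 + 3 * c) * n) := by
            apply Nat.mul_le_mul_left
            apply Nat.pow_le_pow_right (by norm_num)
            nlinarith

end Pool.SG69
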